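import Mathlib

set_option autoImplicit false

/-!
Infinite descent for `a ^ m ± b ^ n = ± s z ^ ℓ`, with power residue conditions on `a, b`.
-/

namespace Pool.Agent.Work.MP_2738db_nt

/-- All prime factors of `s` lie in `S`. -/
def Supp (S : Set ℕ) (s : ℕ) : Prop := ∀ p : ℕ, p.Prime → p ∣ s → p ∈ S

lemma supp_one (S : Set ℕ) : Supp S 1 := by
  intro p hp hd
  exact absurd (Nat.dvd_one.mp hd) hp.one_lt.ne'

lemma Supp.pow {S : Set ℕ} {s : ℕ} (hs : Supp S s) (n : ℕ) : Supp S (s ^ n) :=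
  fun p hp hd => hs p hp (hp.dvd_of_dvd_pow hd)

lemma Supp.mul {S : Set ℕ} {s t : ℕ} (hs : Supp S s) (ht : Supp S t) : Supp S (s * t) := by
  intro p hp hd
  rcases hp.dvd_mul.mp hd with h | h
  · exact hs p hp h
  · exact ht p hp h

/-- A nonzero number whose exponents outside `S` are multiples of `ℓ` is `s * w ^ ℓ` with `s`
supported on `S`. -/
lemma exists_decomp {S : Set ℕ} {ℓ N : ℕ} (hN : N ≠ 0)
    (h : ∀ p : ℕ, p.Prime → p ∉ S → ℓ ∣ N.factorization p) :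
    ∃ s w : ℕ, s ≠ 0 ∧ Supp S s ∧ N = s * w ^ ℓ := by
  classical
  refine ⟨∏ p ∈ N.primeFactors.filter (fun p => p ∈ S), p ^ N.factorization p,
    ∏ p ∈ N.primeFactors.filter (fun p => ¬ p ∈ S), p ^ (N.factorization p / ℓ), ?_, ?_, ?_⟩
  · apply Finset.prod_ne_zero_iff.mpr
    intro p hp
    have hpp := Nat.prime_of_mem_primeFactors (Finset.mem_filter.mp hp).1
    exact pow_ne_zero _ hpp.ne_zero
  · intro r hr hd
    obtain ⟨p, hp, hrp⟩ := (hr.prime.dvd_finsetProd_iff _).mp hd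
    have hpp := Nat.prime_of_mem_primeFactors (Finset.mem_filter.mp hp).1
    have h1 := hr.dvd_of_dvd_pow hrp
    rw [(Nat.prime_dvd_prime_iff_eq hr hpp).mp h1]
    exact (Finset.mem_filter.mp hp).2
  · rw [← Finset.prod_pow]
    have h1 : ∏ p ∈ N.primeFactors.filter (fun p => ¬ p ∈ S), (p ^ (N.factorization p / ℓ)) ^ ℓ =
        ∏ p ∈ N.primeFactors.filter (fun p => ¬ p ∈ S), p ^ N.factorization p := by
      apply Finset.prod_congr rfl
      intro p hp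
      have hpp := Nat.prime_of_mem_primeFactors (Finset.mem_filter.mp hp).1
      rw [← pow_mul, Nat.div_mul_cancel (h p hpp (Finset.mem_filter.mp hp).2)]
    rw [h1, Finset.prod_filter_mul_prod_filter_not]
    exact (Nat.prod_factorization_pow_eq_self hN).symm

lemma dvd_factorization_of_eq {S : Set ℕ} {ℓ N s z : ℕ} (hN : N ≠ 0) (hs : Supp S s)
    (h : N = s * z ^ ℓ) {p : ℕ} (hp : p.Prime) (hpS : p ∉ S) : ℓ ∣ N.factorization p := by
  have hs0 : s ≠ 0 := by rintro rfl; simp at h; exact hN h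
  have hz0 : z ^ ℓ ≠ 0 := by intro h0; rw [h0, mul_zero] at h; exact hN h
  rw [h, Nat.factorization_mul hs0 hz0, Nat.factorization_pow]
  have h1 : s.factorization p = 0 := Nat.factorization_eq_zero_of_not_dvd (fun hd => hpS (hs p hp hd))
  simp [h1]

/-- If `b ^ n = s * y ^ ℓ` in a field, with `b ≠ 0` and `ℓ ∤ n`, then
`s' * b` is an `ℓ`-th power, where `s'` is a power of `s`. -/
lemma exists_pow_of_not_dvd {ℓ n : ℕ} (hℓ : ℓ.Prime) (hn : ¬ ℓ ∣ n) :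
    ∃ e : ℕ, ∀ (F : Type) [Field F] (b s y : F), b ≠ 0 → b ^ n = s * y ^ ℓ →
      ∃ z : F, s ^ e * b = z ^ ℓ := by
  have hcop : Nat.Coprime n ℓ := (Nat.Coprime.symm ((Nat.Prime.coprime_iff_not_dvd hℓ).mpr hn))
  obtain ⟨r, hr⟩ := Nat.exists_mul_mod_eq_one_of_coprime hcop hℓ.one_lt
  have hr' : n * r = ℓ * (n * r / ℓ) + 1 := by
    have := Nat.div_add_mod (n * r) ℓ
    rw [hr.2] at this
    exact this.symm
  set h := n * r / ℓ with hh
  refine ⟨r * (ℓ - 1), ?_⟩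
  intro F _ b s y hb hbn
  refine ⟨s ^ r * y ^ r / b ^ h, ?_⟩
  have h1 : b ^ (n * r) = s ^ r * (y ^ r) ^ ℓ := by
    rw [pow_mul, hbn, mul_pow, ← pow_mul, ← pow_mul, mul_comm ℓ r]
  have h2 : b ^ (n * r) = (b ^ h) ^ ℓ * b := by
    rw [hr', pow_add, pow_one, mul_comm ℓ h, pow_mul]
  have hbh : (b ^ h) ^ ℓ ≠ 0 := pow_ne_zero _ (pow_ne_zero _ hb)
  rw [div_pow, eq_div_iff hbh, mul_pow]
  calc s ^ (r * (ℓ - 1)) * b * (b ^ h) ^ ℓ = s ^ (r * (ℓ - 1)) * ((b ^ h) ^ ℓ * b) := by ring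
    _ = s ^ (r * (ℓ - 1)) * (s ^ r * (y ^ r) ^ ℓ) := by rw [← h2, h1]
    _ = (s ^ r) ^ ℓ * (y ^ r) ^ ℓ := by
        have h3 : ℓ = (ℓ - 1) + 1 := by have := hℓ.one_lt; omega
        have h4 : (s ^ r) ^ ℓ = s ^ (r * (ℓ - 1)) * s ^ r := by
          conv_lhs => rw [h3]
          rw [pow_succ, ← pow_mul]
        rw [h4]; ring

/-- The hypothesis on the ordered pair `(a, b)`: for every `s` supported on `S` some prime factor
`q` of `a` is such that `s * b` is not an `ℓ`-th power modulo `q`. -/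
def NonRes (S : Set ℕ) (ℓ a b : ℕ) : Prop :=
  ∀ s : ℕ, s ≠ 0 → Supp S s → ∃ q : ℕ, q.Prime ∧ q ∣ a ∧ ∀ z : ZMod q, (s : ZMod q) * b ≠ z ^ ℓ

lemma dvd_exponent {S : Set ℕ} {ℓ a b : ℕ} (hℓ : ℓ.Prime) (hodd : Odd ℓ) (hab : Nat.Coprime a b)
    (h : NonRes S ℓ a b) {m n : ℕ} (hm : 0 < m) {e : ℤ} (he : e = 1 ∨ e = -1) {s z : ℕ}
    (hs0 : s ≠ 0) (hs : Supp S s) (heq : ((a : ℤ) ^ m + e * (b : ℤ) ^ n).natAbs = s * z ^ ℓ) :
    ℓ ∣ n := by
  by_contra hn
  obtain ⟨t, ht⟩ := exists_pow_of_not_dvd hℓ hn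
  obtain ⟨q, hq, hqa, hqz⟩ := h (s ^ t) (pow_ne_zero _ hs0) (hs.pow t)
  have hfact : Fact q.Prime := ⟨hq⟩
  have ha : (a : ZMod q) = 0 := (ZMod.natCast_eq_zero_iff _ _).mpr hqa
  have hb : (b : ZMod q) ≠ 0 := by
    intro hb
    have hqb := (ZMod.natCast_eq_zero_iff _ _).mp hb
    have := Nat.dvd_gcd hqa hqb
    rw [hab] at this
    exact hq.one_lt.ne' (Nat.dvd_one.mp this)
  -- sign
  have hsign : ∃ e' : ℤ, (e' = 1 ∨ e' = -1) ∧ ((s * z ^ ℓ : ℕ) : ℤ) = e' * ((a : ℤ) ^ m + e * (b : ℤ) ^ n) := by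
    rcases Int.natAbs_eq ((a : ℤ) ^ m + e * (b : ℤ) ^ n) with h1 | h1
    · refine ⟨1, Or.inl rfl, ?_⟩
      rw [← heq, one_mul]; exact h1.symm
    · refine ⟨-1, Or.inr rfl, ?_⟩
      rw [← heq]
      linarith
  obtain ⟨e', he', hcast⟩ := hsign
  have h1 : ((s : ZMod q)) * (z : ZMod q) ^ ℓ = (e' : ZMod q) * ((e : ZMod q) * (b : ZMod q) ^ n) := by
    have := congrArg (Int.cast : ℤ → ZMod q) hcast
    push_cast at this
    rw [this, ha, zero_pow hm.ne', zero_add]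
  -- the sign squared is one
  have hes : ((e' : ZMod q) * (e : ZMod q)) * ((e' : ZMod q) * (e : ZMod q)) = 1 := by
    rcases he with rfl | rfl <;> rcases he' with rfl | rfl <;> simp
  have hel : ((e' : ZMod q) * (e : ZMod q)) ^ ℓ = ((e' : ZMod q) * (e : ZMod q)) := by
    rcases he with rfl | rfl <;> rcases he' with rfl | rfl <;> simp [hodd.neg_one_pow]
  have h2 : (b : ZMod q) ^ n = (s : ZMod q) * (((e' : ZMod q) * (e : ZMod q)) * z) ^ ℓ := by
    rw [mul_pow, hel]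
    calc (b : ZMod q) ^ n = ((e' : ZMod q) * (e : ZMod q)) * ((e' : ZMod q) * (e : ZMod q)) * (b : ZMod q) ^ n := by
          rw [hes, one_mul]
      _ = ((e' : ZMod q) * (e : ZMod q)) * ((e' : ZMod q) * ((e : ZMod q) * (b : ZMod q) ^ n)) := by ring
      _ = _ := by rw [← h1]; ring
  obtain ⟨w, hw⟩ := ht (ZMod q) (b : ZMod q) (s : ZMod q) _ hb h2
  apply hqz w
  push_cast
  exact hw

lemma factorization_eq_of_pow {ℓ : ℕ} (hodd : Odd ℓ) {p : ℕ} (hp : p.Prime)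
    (hpl : ¬ p ∣ ℓ) {X Y : ℤ} (hX : ¬ (p : ℤ) ∣ X) (hd : (p : ℤ) ∣ X + Y) (h0 : X + Y ≠ 0)
    (h0' : X ^ ℓ + Y ^ ℓ ≠ 0) :
    (X + Y).natAbs.factorization p = (X ^ ℓ + Y ^ ℓ).natAbs.factorization p := by
  have hpZ : Prime (p : ℤ) := Nat.prime_iff_prime_int.mp hp
  have h1 : emultiplicity (p : ℤ) (X ^ ℓ - (-Y) ^ ℓ) = emultiplicity (p : ℤ) (X - (-Y)) := by
    apply emultiplicity_pow_sub_pow_of_prime hpZ
    · rw [sub_neg_eq_add]; exact hd
    · exact hX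
    · intro h
      exact hpl (by exact_mod_cast h)
  rw [hodd.neg_pow, sub_neg_eq_add, sub_neg_eq_add] at h1
  have h2 : ∀ k : ℕ, p ^ k ∣ (X + Y).natAbs ↔ p ^ k ∣ (X ^ ℓ + Y ^ ℓ).natAbs := by
    intro k
    have e1 : ∀ T : ℤ, p ^ k ∣ T.natAbs ↔ (p : ℤ) ^ k ∣ T := by
      intro T
      rw [← Int.natCast_dvd, Nat.cast_pow]
    rw [e1, e1, pow_dvd_iff_le_emultiplicity, pow_dvd_iff_le_emultiplicity, h1]
  have hne : (X + Y).natAbs ≠ 0 := Int.natAbs_ne_zero.mpr h0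
  have hne' : (X ^ ℓ + Y ^ ℓ).natAbs ≠ 0 := Int.natAbs_ne_zero.mpr h0'
  apply le_antisymm
  · rw [← hp.pow_dvd_iff_le_factorization hne', ← h2]
    exact Nat.ordProj_dvd _ _
  · rw [← hp.pow_dvd_iff_le_factorization hne, h2]
    exact Nat.ordProj_dvd _ _

/-- The descent. -/
theorem descent {S : Set ℕ} {ℓ a b : ℕ} (hℓ : ℓ.Prime) (hodd : Odd ℓ) (hS : ℓ ∈ S)
    (hab : Nat.Coprime a b) (h1 : NonRes S ℓ a b) (h2 : NonRes S ℓ b a) :
    ∀ m n : ℕ, 0 < m → 0 < n → ∀ e : ℤ, (e = 1 ∨ e = -1) → ∀ s z : ℕ, s ≠ 0 → Supp S s →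
      ((a : ℤ) ^ m + e * (b : ℤ) ^ n).natAbs ≠ s * z ^ ℓ := by
  intro m
  induction m using Nat.strong_induction_on with
  | _ m ih =>
  intro n hm hn e he s z hs0 hs heq
  -- nonvanishing
  have hne : (a : ℤ) ^ m + e * (b : ℤ) ^ n ≠ 0 := by
    intro h0
    obtain ⟨q, hq, hqa, hqz⟩ := h1 1 one_ne_zero (supp_one S)
    have hqb : (q : ℤ) ∣ (b : ℤ) ^ n := by
      have h3 : (q : ℤ) ∣ (a : ℤ) ^ m := dvd_pow (by exact_mod_cast hqa) hm.ne'
      rcases he with rfl | rfl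
      · have h4 : (b : ℤ) ^ n = - (a : ℤ) ^ m := by linarith
        rw [h4]; exact (dvd_neg).mpr h3
      · have h4 : (b : ℤ) ^ n = (a : ℤ) ^ m := by linarith
        rw [h4]; exact h3
    have hqb' : q ∣ b := by
      have : q ∣ b ^ n := by exact_mod_cast hqb
      exact hq.dvd_of_dvd_pow this
    have := Nat.dvd_gcd hqa hqb'
    rw [hab] at this
    exact hq.one_lt.ne' (Nat.dvd_one.mp this)
  have hln : ℓ ∣ n := dvd_exponent hℓ hodd hab h1 hm he hs0 hs heq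
  have hlm : ℓ ∣ m := by
    have heq' : ((b : ℤ) ^ n + e * (a : ℤ) ^ m).natAbs = s * z ^ ℓ := by
      rw [← heq]
      rcases he with rfl | rfl
      · congr 1; ring
      · rw [← Int.natAbs_neg]; congr 1; ring
    exact dvd_exponent hℓ hodd hab.symm h2 hn he hs0 hs heq'
  obtain ⟨m1, rfl⟩ := hlm
  obtain ⟨n1, rfl⟩ := hln
  have hm1 : 0 < m1 := Nat.pos_of_mul_pos_left hm
  have hn1 : 0 < n1 := Nat.pos_of_mul_pos_left hn
  have hlt : m1 < ℓ * m1 := by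
    have := hℓ.two_le
    nlinarith
  set X : ℤ := (a : ℤ) ^ m1 with hX
  set Y : ℤ := e * (b : ℤ) ^ n1 with hY
  have hel : e ^ ℓ = e := by
    rcases he with rfl | rfl
    · simp
    · exact hodd.neg_one_pow
  have hXY : (a : ℤ) ^ (ℓ * m1) + e * (b : ℤ) ^ (ℓ * n1) = X ^ ℓ + Y ^ ℓ := by
    rw [hX, hY, mul_pow, hel, ← pow_mul, ← pow_mul, mul_comm m1 ℓ, mul_comm n1 ℓ]
  rw [hXY] at hne heq
  have hXY0 : X + Y ≠ 0 := by
    intro h0
    apply hne
    have : X = -Y := by linarith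
    rw [this, hodd.neg_pow]; ring
  have hval : ∀ p : ℕ, p.Prime → p ∉ S → ℓ ∣ (X + Y).natAbs.factorization p := by
    intro p hp hpS
    by_cases hd : (p : ℤ) ∣ X + Y
    · have hpl : ¬ p ∣ ℓ := by
        intro hpl
        rw [(Nat.prime_dvd_prime_iff_eq hp hℓ).mp hpl] at hpS
        exact hpS hS
      have hXd : ¬ (p : ℤ) ∣ X := by
        intro hpX
        have hpY : (p : ℤ) ∣ Y := (dvd_add_right hpX).mp hd
        have hpa : p ∣ a := by
          have : p ∣ a ^ m1 := by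
            have h3 : (p : ℤ) ∣ ((a ^ m1 : ℕ) : ℤ) := by push_cast; exact hpX
            exact_mod_cast h3
          exact hp.dvd_of_dvd_pow this
        have hpb : p ∣ b := by
          have h3 : (p : ℤ) ∣ (b : ℤ) ^ n1 := by
            rcases he with rfl | rfl
            · rw [hY, one_mul] at hpY; exact hpY
            · rw [hY, neg_one_mul] at hpY; exact (dvd_neg).mp hpY
          have h4 : (p : ℤ) ∣ ((b ^ n1 : ℕ) : ℤ) := by push_cast; exact h3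
          have : p ∣ b ^ n1 := by exact_mod_cast h4
          exact hp.dvd_of_dvd_pow this
        have := Nat.dvd_gcd hpa hpb
        rw [hab] at this
        exact hp.one_lt.ne' (Nat.dvd_one.mp this)
      rw [factorization_eq_of_pow hodd hp hpl hXd hd hXY0 hne]
      exact dvd_factorization_of_eq (Int.natAbs_ne_zero.mpr hne) hs heq hp hpS
    · have h3 : ¬ p ∣ (X + Y).natAbs := by
        intro h4
        exact hd (Int.natCast_dvd.mpr h4)
      rw [Nat.factorization_eq_zero_of_not_dvd h3]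
      exact dvd_zero _
  obtain ⟨s', w, hs'0, hs', hw⟩ := exists_decomp (Int.natAbs_ne_zero.mpr hXY0) hval
  exact ih m1 hlt n1 hm1 hn1 e he s' w hs'0 hs' hw

end Pool.Agent.Work.MP_2738db_nt
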