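import Pool.Agent.Work.MP_2738db_nt.Residues
import Pool.Agent.Work.MP_2738db_nt.Descent

set_option autoImplicit false

/-!
The quadratic case: `a ^ m + b ^ n = s z ^ 2`, `a ^ m = b ^ n + s z ^ 2`.
-/

namespace Pool.Agent.Work.MP_2738db_nt

lemma not_dvd_of_coprime {a b q : ℕ} (hab : Nat.Coprime a b) (hq : q.Prime) (hqa : q ∣ a) :
    ¬ q ∣ b := by
  intro hqb
  have := Nat.dvd_gcd hqa hqb
  rw [hab] at this
  exact hq.one_lt.ne' (Nat.dvd_one.mp this)

/-- In a field, if `b ^ n` is a square, `b ≠ 0` and `b` is not a square then `n` is even. -/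
lemma even_of_isSquare_pow {F : Type*} [Field F] {b : F} (hb0 : b ≠ 0) (hb : ¬ IsSquare b) {n : ℕ}
    (h : IsSquare (b ^ n)) : Even n := by
  by_contra hn
  rw [Nat.not_even_iff_odd] at hn
  obtain ⟨k, rfl⟩ := hn
  apply hb
  obtain ⟨y, hy⟩ := h
  refine ⟨y / b ^ k, ?_⟩
  have hbk : b ^ k ≠ 0 := pow_ne_zero _ hb0
  field_simp
  have : b ^ (2 * k + 1) = b * (b ^ k) ^ 2 := by ring
  rw [← this, hy]
  ring

/-- Parity of exponents, from a prime `q ≡ 1` modulo `WW K`. -/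
lemma even_exponent {K a b : ℕ} (hab : Nat.Coprime a b) {q : ℕ} (hq : q.Prime)
    (hq1 : q ≡ 1 [MOD WW K]) (hqa : q ∣ a) (hqb : ¬ IsSquare (b : ZMod q)) {m n s z : ℕ} (hm : 0 < m)
    (hs0 : s ≠ 0) (hs : NoLarge K s)
    (heq : a ^ m + b ^ n = s * z ^ 2 ∨ a ^ m = b ^ n + s * z ^ 2 ∨ b ^ n = a ^ m + s * z ^ 2) :
    Even n := by
  have hfact : Fact q.Prime := ⟨hq⟩
  have ha : (a : ZMod q) = 0 := (ZMod.natCast_eq_zero_iff _ _).mpr hqa
  have hb : (b : ZMod q) ≠ 0 := by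
    intro hb
    exact not_dvd_of_coprime hab hq hqa ((ZMod.natCast_eq_zero_iff _ _).mp hb)
  have hsq : IsSquare (s : ZMod q) :=
    isSquare_of_noLarge (fun p hp hpK => isSquare_of_one hq1 hp hpK) s hs0 hs
  have h8 : q % 8 = 1 := hq1.of_dvd (Dvd.intro _ rfl)
  have hneg : IsSquare (-1 : ZMod q) := ZMod.exists_sq_eq_neg_one_iff.mpr (by omega)
  have hz2 : IsSquare ((z : ZMod q) ^ 2) := ⟨z, by ring⟩
  apply even_of_isSquare_pow hb hqb
  rcases heq with h | h | h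
  · have := congrArg (Nat.cast : ℕ → ZMod q) h
    push_cast at this
    rw [ha, zero_pow hm.ne', zero_add] at this
    rw [this]
    exact hsq.mul hz2
  · have := congrArg (Nat.cast : ℕ → ZMod q) h
    push_cast at this
    rw [ha, zero_pow hm.ne'] at this
    have h2 : (b : ZMod q) ^ n = (-1) * ((s : ZMod q) * (z : ZMod q) ^ 2) := by
      have : (b : ZMod q) ^ n + (s : ZMod q) * (z : ZMod q) ^ 2 = 0 := this.symm
      rw [eq_neg_of_add_eq_zero_left this]; ring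
    rw [h2]
    exact hneg.mul (hsq.mul hz2)
  · have := congrArg (Nat.cast : ℕ → ZMod q) h
    push_cast at this
    rw [ha, zero_pow hm.ne', zero_add] at this
    rw [this]
    exact hsq.mul hz2

/-- The difference case. -/
lemma diff_contra {K a b : ℕ} (hab : Nat.Coprime a b) {q : ℕ} (hq : q.Prime)
    (hq1 : q + 1 ≡ 0 [MOD WW K]) (hqa : q ∣ a) {m n s z : ℕ} (hm : 0 < m) (hn : Even n)
    (hs0 : s ≠ 0) (hs : NoLarge K s) : a ^ m ≠ b ^ n + s * z ^ 2 := by
  intro h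
  have hfact : Fact q.Prime := ⟨hq⟩
  have ha : (a : ZMod q) = 0 := (ZMod.natCast_eq_zero_iff _ _).mpr hqa
  have hb : (b : ZMod q) ≠ 0 := by
    intro hb
    exact not_dvd_of_coprime hab hq hqa ((ZMod.natCast_eq_zero_iff _ _).mp hb)
  obtain ⟨σ, hσ⟩ : IsSquare (s : ZMod q) :=
    isSquare_of_noLarge (fun p hp hpK => isSquare_of_neg_one hq1 hp hpK) s hs0 hs
  have h8 : q % 8 = 7 := by
    have h1 : q + 1 ≡ 0 [MOD 8] := hq1.of_dvd (Dvd.intro _ rfl)
    have h2 : (q + 1) % 8 = 0 := h1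
    omega
  obtain ⟨ν, hν⟩ := hn
  have h1 := congrArg (Nat.cast : ℕ → ZMod q) h
  push_cast at h1
  rw [ha, zero_pow hm.ne', hν, pow_add, hσ] at h1
  have hbν : (b : ZMod q) ^ ν ≠ 0 := pow_ne_zero _ hb
  have h2 : (σ * z) ^ 2 = - ((b : ZMod q) ^ ν * (b : ZMod q) ^ ν) := by
    have h3 : (b : ZMod q) ^ ν * (b : ZMod q) ^ ν + σ * σ * (z : ZMod q) ^ 2 = 0 := h1.symm
    have h4 := eq_neg_of_add_eq_zero_right h3
    rw [← h4]; ring
  have h3 : IsSquare (-1 : ZMod q) := by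
    refine ⟨σ * z / (b : ZMod q) ^ ν, ?_⟩
    field_simp
    linear_combination (-1 : ZMod q) * h2
  exact (ZMod.exists_sq_eq_neg_one_iff.mp h3) (by omega)

/-- Primitive Pythagorean triples: `2 B` is a square modulo the primes `q ≡ 5` modulo `8` dividing
the odd leg `A`. -/
lemma isSquare_two_mul {A B Z q : ℕ} (h : A ^ 2 + B ^ 2 = Z ^ 2) (hAB : Nat.Coprime A B)
    (hA : Odd A) (hq : q.Prime) (hq4 : q % 4 = 1) (hqA : q ∣ A) :
    IsSquare ((2 * B : ℕ) : ZMod q) := by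
  have hfact : Fact q.Prime := ⟨hq⟩
  have hA0 : 0 < A := hA.pos
  have hBZ : B < Z := by
    have : B ^ 2 < Z ^ 2 := by
      have : 0 < A ^ 2 := by positivity
      omega
    exact lt_of_pow_lt_pow_left₀ 2 (Nat.zero_le _) this
  obtain ⟨x, hx⟩ : ∃ x, Z = B + x := ⟨Z - B, by omega⟩
  subst hx
  have hprod : x * (x + 2 * B) = A ^ 2 := by
    have : (B + x) ^ 2 = B ^ 2 + x * (x + 2 * B) := by ring
    omega
  have hcop : Nat.Coprime x (x + 2 * B) := by
    apply Nat.Coprime.symm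
    rw [Nat.coprime_iff_gcd_eq_one]
    by_contra hne
    obtain ⟨p, hp, hpd⟩ := Nat.exists_prime_and_dvd hne
    have hp1 : p ∣ x + 2 * B := hpd.trans (Nat.gcd_dvd_left _ _)
    have hp2 : p ∣ x := hpd.trans (Nat.gcd_dvd_right _ _)
    have hp3 : p ∣ 2 * B := (Nat.dvd_add_right hp2).mp hp1
    have hpA : p ∣ A := by
      have : p ∣ A ^ 2 := by rw [← hprod]; exact hp2.mul_right _
      exact hp.dvd_of_dvd_pow this
    have hp2' : p ≠ 2 := by
      rintro rfl
      exact (Nat.not_even_iff_odd.mpr hA) (even_iff_two_dvd.mpr hpA)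
    rcases hp.dvd_mul.mp hp3 with h2 | h2
    · exact hp2' ((Nat.prime_dvd_prime_iff_eq hp Nat.prime_two).mp h2)
    · exact not_dvd_of_coprime hAB hp hpA h2
  have hx1 : IsUnit (gcd x (x + 2 * B)) := by
    have : gcd x (x + 2 * B) = 1 := hcop
    rw [this]; exact isUnit_one
  have hx2 : IsUnit (gcd (x + 2 * B) x) := by
    have : gcd (x + 2 * B) x = 1 := hcop.symm
    rw [this]; exact isUnit_one
  obtain ⟨u, hu⟩ := exists_eq_pow_of_mul_eq_pow hx1 hprod
  obtain ⟨v, hv⟩ := exists_eq_pow_of_mul_eq_pow hx2 (by rw [mul_comm]; exact hprod)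
  have hneg : IsSquare (-1 : ZMod q) := ZMod.exists_sq_eq_neg_one_iff.mpr (by omega)
  have hq2 : q ∣ x * (x + 2 * B) := by rw [hprod]; exact dvd_pow hqA two_ne_zero
  rcases hq.dvd_mul.mp hq2 with h1 | h1
  · -- `q ∣ x`
    have h2 : (x : ZMod q) = 0 := (ZMod.natCast_eq_zero_iff _ _).mpr h1
    refine ⟨(v : ZMod q), ?_⟩
    have h3 := congrArg (Nat.cast : ℕ → ZMod q) hv
    push_cast at h3 ⊢
    rw [h2, zero_add] at h3
    rw [h3]; ring
  · have h2 : ((x + 2 * B : ℕ) : ZMod q) = 0 := (ZMod.natCast_eq_zero_iff _ _).mpr h1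
    have h3 := congrArg (Nat.cast : ℕ → ZMod q) hu
    push_cast at h2 h3 ⊢
    have h4 : (2 : ZMod q) * B = (-1) * (u : ZMod q) ^ 2 := by
      rw [← h3]
      have := eq_neg_of_add_eq_zero_right h2
      rw [this]; ring
    rw [h4]
    exact hneg.mul ⟨u, by ring⟩

/-- Contradiction for the Pythagorean equation with `A = a ^ μ` odd. -/
lemma pyth_contra {a b μ ν Z q : ℕ} (hab : Nat.Coprime a b) (ha : Odd a) (hμ : 0 < μ)
    (hq : q.Prime) (hq8 : q % 8 = 5) (hqa : q ∣ a) (hqb : ¬ IsSquare ((2 : ZMod q) * b))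
    (h : (a ^ μ) ^ 2 + (b ^ ν) ^ 2 = Z ^ 2) : False := by
  have hfact : Fact q.Prime := ⟨hq⟩
  have hb : (b : ZMod q) ≠ 0 := by
    intro hb
    exact not_dvd_of_coprime hab hq hqa ((ZMod.natCast_eq_zero_iff _ _).mp hb)
  have h1 := isSquare_two_mul h (hab.pow μ ν) (ha.pow) hq (by omega) (dvd_pow hqa hμ.ne')
  push_cast at h1
  obtain ⟨y, hy⟩ := h1
  rcases Nat.even_or_odd' ν with ⟨k, hk | hk⟩
  · -- `2` is a square
    have hbk : (b : ZMod q) ^ k ≠ 0 := pow_ne_zero _ hb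
    have h2 : IsSquare (2 : ZMod q) := by
      refine ⟨y / (b : ZMod q) ^ k, ?_⟩
      field_simp
      have : (b : ZMod q) ^ ν = ((b : ZMod q) ^ k) ^ 2 := by rw [hk, ← pow_mul, mul_comm]
      rw [← this, hy]; ring
    have h3 := (ZMod.exists_sq_eq_two_iff (p := q) (by omega)).mp h2
    omega
  · apply hqb
    have hbk : (b : ZMod q) ^ k ≠ 0 := pow_ne_zero _ hb
    refine ⟨y / (b : ZMod q) ^ k, ?_⟩
    field_simp
    have : (b : ZMod q) ^ ν = b * ((b : ZMod q) ^ k) ^ 2 := by rw [hk]; ring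
    rw [mul_assoc, ← this, hy]; ring

/-- A number without large prime factors all of whose exponents are even is a square. -/
lemma isSquare_of_even_factorization {s : ℕ} (hs0 : s ≠ 0)
    (h : ∀ p : ℕ, p.Prime → 2 ∣ s.factorization p) : ∃ σ : ℕ, s = σ ^ 2 := by
  obtain ⟨t, w, _, ht, hw⟩ := exists_decomp (S := ∅) hs0 (fun p hp _ => h p hp)
  have ht1 : t = 1 := by
    by_contra hne
    obtain ⟨p, hp, hpd⟩ := Nat.exists_prime_and_dvd hne
    exact ht p hp hpd
  exact ⟨w, by rw [hw, ht1, one_mul]⟩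

/-- The generic conditions used for squares. -/
structure GenSq (K a b : ℕ) : Prop where
  g1 : ∃ q : ℕ, q.Prime ∧ q ≡ 1 [MOD WW K] ∧ q ∣ a ∧ ¬ IsSquare (b : ZMod q)
  g2 : ∃ q : ℕ, q.Prime ∧ q + 1 ≡ 0 [MOD WW K] ∧ q ∣ a
  g3 : ∀ p₀ : ℕ, p₀.Prime → p₀ ≤ K → ∃ q : ℕ, q.Prime ∧ q ∣ a ∧ ¬ IsSquare (p₀ : ZMod q) ∧
    ∀ p : ℕ, p.Prime → p ≤ K → p ≠ p₀ → IsSquare (p : ZMod q)
  g4 : ∃ q : ℕ, q.Prime ∧ q % 8 = 5 ∧ q ∣ a ∧ ¬ IsSquare ((2 : ZMod q) * b)

/-- In the sum case the coefficient is a square. -/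
lemma square_coeff {K a b : ℕ} (hab : Nat.Coprime a b) (h : GenSq K a b) {m n s z : ℕ}
    (hm : 0 < m) (hn : Even n) (hs0 : s ≠ 0) (hs : NoLarge K s)
    (heq : a ^ m + b ^ n = s * z ^ 2) : ∃ σ : ℕ, s = σ ^ 2 := by
  apply isSquare_of_even_factorization hs0
  intro p₀ hp₀
  by_cases hp₀K : p₀ ≤ K
  · obtain ⟨q, hq, hqa, hqp₀, hqp⟩ := h.g3 p₀ hp₀ hp₀K
    have hfact : Fact q.Prime := ⟨hq⟩
    have ha : (a : ZMod q) = 0 := (ZMod.natCast_eq_zero_iff _ _).mpr hqa
    have hb : (b : ZMod q) ≠ 0 := by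
      intro hb
      exact not_dvd_of_coprime hab hq hqa ((ZMod.natCast_eq_zero_iff _ _).mp hb)
    obtain ⟨ν, hν⟩ := hn
    have h1 := congrArg (Nat.cast : ℕ → ZMod q) heq
    push_cast at h1
    rw [ha, zero_pow hm.ne', zero_add, hν, pow_add] at h1
    have hbν : (b : ZMod q) ^ ν ≠ 0 := pow_ne_zero _ hb
    have hz : (z : ZMod q) ≠ 0 := by
      intro hz
      rw [hz] at h1
      simp [hbν] at h1
    have hsq : IsSquare (s : ZMod q) := by
      refine ⟨(b : ZMod q) ^ ν / z, ?_⟩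
      field_simp
      linear_combination (-1 : ZMod q) * h1
    -- write `s = p₀ ^ v * t`
    have hdec : s = p₀ ^ s.factorization p₀ * (s / p₀ ^ s.factorization p₀) :=
      (Nat.ordProj_mul_ordCompl_eq_self s p₀).symm
    set t := s / p₀ ^ s.factorization p₀ with ht
    have ht0 : t ≠ 0 := by
      intro h0
      rw [h0, mul_zero] at hdec
      exact hs0 hdec
    have htp : ¬ p₀ ∣ t := Nat.not_dvd_ordCompl hp₀ hs0
    have htsq : IsSquare (t : ZMod q) := by
      have key : ∀ u : ℕ, u ≠ 0 → NoLarge K u → ¬ p₀ ∣ u → IsSquare (u : ZMod q) := by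
        intro u
        induction u using Nat.recOnMul with
        | zero => intro h0; exact absurd rfl h0
        | one => intro _ _ _; simp
        | prime p hp =>
          intro _ hs' hnd
          exact hqp p hp (hs' p hp dvd_rfl) (fun h => hnd (by rw [h]))
        | mul a b iha ihb =>
          intro h0 hs' hnd
          have ha0 : a ≠ 0 := left_ne_zero_of_mul h0
          have hb0 : b ≠ 0 := right_ne_zero_of_mul h0
          have ha : NoLarge K a := hs'.of_mul_left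
          have hb : NoLarge K b := by
            rw [mul_comm] at hs'
            exact hs'.of_mul_left
          push_cast
          exact (iha ha0 ha (fun h => hnd (h.mul_right _))).mul (ihb hb0 hb (fun h => hnd (h.mul_left _)))
      apply key t ht0 _ htp
      intro p hp hd
      exact hs p hp (by rw [hdec]; exact hd.mul_left _)
    have htq : (t : ZMod q) ≠ 0 := by
      intro h0
      have h2 : (s : ZMod q) = 0 := by
        rw [hdec]; push_cast; rw [h0, mul_zero]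
      rw [h2, zero_mul] at h1
      simp [hbν] at h1
    have hp₀q : (p₀ : ZMod q) ≠ 0 := by
      intro h0
      exact hqp₀ (by rw [h0]; exact IsSquare.zero)
    have hpow : IsSquare ((p₀ : ZMod q) ^ s.factorization p₀) := by
      obtain ⟨x, hx⟩ := hsq
      obtain ⟨y, hy⟩ := htsq
      have hy0 : y ≠ 0 := by
        rintro rfl
        rw [mul_zero] at hy
        exact htq hy
      refine ⟨x / y, ?_⟩
      have h2 : (p₀ : ZMod q) ^ s.factorization p₀ * (t : ZMod q) = x * x := by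
        rw [← hx]
        conv_rhs => rw [hdec]
        push_cast
        rfl
      rw [hy] at h2
      field_simp
      rw [← pow_two] at h2
      rw [h2]; ring
    exact even_iff_two_dvd.mp (even_of_isSquare_pow hp₀q hqp₀ hpow)
  · have : s.factorization p₀ = 0 :=
      Nat.factorization_eq_zero_of_not_dvd (fun hd => hp₀K (hs p₀ hp₀ hd))
    rw [this]
    exact dvd_zero _

/-- The quadratic case for generic pairs. -/
theorem quad_contra {K a b : ℕ} (hab : Nat.Coprime a b) (h : GenSq K a b) (h' : GenSq K b a)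
    {m n s z : ℕ} (hm : 0 < m) (hn : 0 < n) (hs0 : s ≠ 0) (hs : NoLarge K s) :
    a ^ m + b ^ n ≠ s * z ^ 2 ∧ a ^ m ≠ b ^ n + s * z ^ 2 ∧ b ^ n ≠ a ^ m + s * z ^ 2 := by
  have hevn : ∀ (_ : a ^ m + b ^ n = s * z ^ 2 ∨ a ^ m = b ^ n + s * z ^ 2 ∨
      b ^ n = a ^ m + s * z ^ 2), Even n := by
    intro heq
    obtain ⟨q, hq, hq1, hqa, hqb⟩ := h.g1
    exact even_exponent hab hq hq1 hqa hqb hm hs0 hs heq
  have hevm : ∀ (_ : b ^ n + a ^ m = s * z ^ 2 ∨ b ^ n = a ^ m + s * z ^ 2 ∨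
      a ^ m = b ^ n + s * z ^ 2), Even m := by
    intro heq
    obtain ⟨q, hq, hq1, hqa, hqb⟩ := h'.g1
    exact even_exponent hab.symm hq hq1 hqa hqb hn hs0 hs heq
  refine ⟨?_, ?_, ?_⟩
  · intro heq
    have hn2 := hevn (Or.inl heq)
    have hm2 := hevm (Or.inl (by rw [add_comm]; exact heq))
    obtain ⟨σ, hσ⟩ := square_coeff hab h hm hn2 hs0 hs heq
    obtain ⟨μ, hμ⟩ := hm2
    obtain ⟨ν, hν⟩ := hn2
    have hμ0 : 0 < μ := by omega
    have hν0 : 0 < ν := by omega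
    have hpy : (a ^ μ) ^ 2 + (b ^ ν) ^ 2 = (σ * z) ^ 2 := by
      rw [← pow_mul, ← pow_mul, mul_pow, ← hσ, ← heq, hμ, hν]
      congr 2 <;> ring
    rcases Nat.even_or_odd a with ha | ha
    · rcases Nat.even_or_odd b with hb | hb
      · have := Nat.dvd_gcd (even_iff_two_dvd.mp ha) (even_iff_two_dvd.mp hb)
        rw [hab] at this
        omega
      · obtain ⟨q, hq, hq8, hqb, hqa⟩ := h'.g4
        exact pyth_contra hab.symm hb hν0 hq hq8 hqb hqa (by rw [add_comm]; exact hpy)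
    · obtain ⟨q, hq, hq8, hqa, hqb⟩ := h.g4
      exact pyth_contra hab ha hμ0 hq hq8 hqa hqb hpy
  · intro heq
    have hn2 := hevn (Or.inr (Or.inl heq))
    obtain ⟨q, hq, hq1, hqa⟩ := h.g2
    exact diff_contra hab hq hq1 hqa hm hn2 hs0 hs heq
  · intro heq
    have hm2 := hevm (Or.inr (Or.inl heq))
    obtain ⟨q, hq, hq1, hqa⟩ := h'.g2
    exact diff_contra hab.symm hq hq1 hqa hn hm2 hs0 hs heq

end Pool.Agent.Work.MP_2738db_nt
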