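import Pool.Agent.Work.MP_2738db_nt.Sieve
import Pool.Agent.Work.MP_2738db_nt.Quad

set_option autoImplicit false

/-!
Generic pairs: all the congruence-certified properties needed.
-/

namespace Pool.Agent.Work.MP_2738db_nt

/-- Permuting coordinates. -/
lemma AA.reindex {d : ℕ} {P : (Fin d → ℕ) → Prop} (h : AA d P) (σ : Equiv.Perm (Fin d)) :
    AA d (fun x => P (fun i => x (σ i))) := by
  classical
  intro ε hε
  obtain ⟨y0, hy0⟩ := h ε hε
  refine ⟨y0, fun y hy => ?_⟩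
  obtain ⟨R, hR, hR'⟩ := hy0 y hy
  refine ⟨Finset.univ.filter (fun v => (fun i => v (σ i)) ∈ R), ?_, ?_⟩
  · have : (Finset.univ.filter (fun v : Fin d → ZMod (primorial y) => (fun i => v (σ i)) ∈ R)).card
        = R.card := by
      apply Finset.card_bij (fun v _ => fun i => v (σ i))
      · intro v hv
        exact (Finset.mem_filter.mp hv).2
      · intro v _ w _ hvw
        funext i
        have := congrFun hvw (σ.symm i)
        simpa using this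
      · intro u hu
        have hu' : (fun i => u (σ.symm (σ i))) = u := by
          funext i
          rw [Equiv.symm_apply_apply]
        refine ⟨fun i => u (σ.symm i), ?_, hu'⟩
        rw [Finset.mem_filter]
        refine ⟨Finset.mem_univ _, ?_⟩
        rw [hu']
        exact hu
    rw [this]
    exact hR
  · intro x hx
    exact hR' (fun i => x (σ i)) (Finset.mem_filter.mp hx).2

lemma AA.swap {P : (Fin 2 → ℕ) → Prop} (h : AA 2 P) : AA 2 (fun x => P ![x 1, x 0]) := by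
  have h1 := h.reindex (Equiv.swap (0 : Fin 2) 1)
  refine h1.mono ?_
  intro x hx
  have : (fun i => x ((Equiv.swap (0 : Fin 2) 1) i)) = ![x 1, x 0] := by
    funext i
    fin_cases i <;> simp
  rw [← this]
  exact hx

lemma natCast_eq_iff_modEq {w q r : ℕ} : ((q : ZMod w) = (r : ZMod w)) ↔ q ≡ r [MOD w] :=
  ZMod.natCast_eq_natCast_iff _ _ _

/-- Counting vectors of length two. -/
lemma card_two {q : ℕ} (P : ZMod q → Prop) :
    Nat.card {u : Fin 2 → ZMod q // u 0 = 0 ∧ P (u 1)} = Nat.card {y : ZMod q // P y} := by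
  apply Nat.card_congr
  exact
    { toFun := fun u => ⟨u.1 1, u.2.2⟩
      invFun := fun y => ⟨![0, y.1], by simp, by simpa using y.2⟩
      left_inv := fun u => by
        apply Subtype.ext
        funext i
        fin_cases i
        · simp only [Fin.zero_eta, Matrix.cons_val_zero]; exact u.2.1.symm
        · simp
      right_inv := fun y => by simp }

/-- Generic source for pairs. -/
lemma AA.of_card {w : ℕ} [NeZero w] {r : ZMod w} (hr : IsUnit r) (y1 : ℕ)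
    (P : (q : ℕ) → ZMod q → Prop)
    (hP : ∀ q : ℕ, q.Prime → (q : ZMod w) = r → y1 < q → q ≤ 4 * Nat.card {y : ZMod q // P q y}) :
    AA 2 (fun x => ∃ q : ℕ, q.Prime ∧ (q : ZMod w) = r ∧ y1 < q ∧ q ∣ x 0 ∧ P q (x 1)) := by
  have h := AA.of_primes (d := 2) hr y1 (fun q u => u 0 = 0 ∧ P q (u 1)) (c := 1 / 4) (by norm_num)
    (by
      intro q hq hqr hy
      have h1 := hP q hq hqr hy
      rw [card_two (P q)]
      have h2 : (q : ℝ) ≤ 4 * (Nat.card {y : ZMod q // P q y} : ℝ) := by exact_mod_cast h1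
      have hq0 : (0 : ℝ) < q := by exact_mod_cast hq.pos
      nlinarith)
  refine h.mono ?_
  rintro x ⟨q, hq, hqr, hy, h0, h1⟩
  exact ⟨q, hq, hqr, hy, (ZMod.natCast_eq_zero_iff _ _).mp h0, h1⟩

instance (K : ℕ) : NeZero (WW K) := ⟨(WW_pos K).ne'⟩

lemma aa_g1 (K : ℕ) : AA 2 (fun x => ∃ q : ℕ, q.Prime ∧ q ≡ 1 [MOD WW K] ∧ q ∣ x 0 ∧
    ¬ IsSquare (x 1 : ZMod q)) := by
  have h := AA.of_card (w := WW K) (r := 1) isUnit_one 2 (fun q y => ¬ IsSquare y)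
    (by
      intro q hq _ hy
      have hfact : Fact q.Prime := ⟨hq⟩
      have h1 := card_nonsq (q := q) (by omega) (s := 1) one_ne_zero
      refine h1.trans (Nat.mul_le_mul_left 4 ?_)
      apply Nat.card_le_card_of_injective
        (fun y : {y : ZMod q // y ≠ 0 ∧ ¬ IsSquare ((1 : ZMod q) * y)} =>
          (⟨y.1, by have := y.2.2; rwa [one_mul] at this⟩ : {y : ZMod q // ¬ IsSquare y}))
      intro y1 y2 h12
      have h13 := congrArg Subtype.val h12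
      exact Subtype.ext h13)
  refine h.mono ?_
  rintro x ⟨q, hq, hqr, _, hd, hx⟩
  refine ⟨q, hq, ?_, hd, hx⟩
  have : ((q : ℕ) : ZMod (WW K)) = ((1 : ℕ) : ZMod (WW K)) := by rw [hqr]; simp
  exact natCast_eq_iff_modEq.mp this

lemma aa_g2 (K : ℕ) : AA 2 (fun x => ∃ q : ℕ, q.Prime ∧ q + 1 ≡ 0 [MOD WW K] ∧ q ∣ x 0) := by
  have h := AA.of_card (w := WW K) (r := -1) (isUnit_one.neg) 2 (fun q y => True)
    (by
      intro q hq _ hy
      have hfact : Fact q.Prime := ⟨hq⟩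
      have h1 : Nat.card {y : ZMod q // True} = q := by
        rw [Nat.card_congr (Equiv.subtypeUnivEquiv (fun _ => trivial)), Nat.card_eq_fintype_card,
          ZMod.card]
      rw [h1]; omega)
  refine h.mono ?_
  rintro x ⟨q, hq, hqr, _, hd, -⟩
  refine ⟨q, hq, ?_, hd⟩
  have : ((q + 1 : ℕ) : ZMod (WW K)) = ((0 : ℕ) : ZMod (WW K)) := by push_cast; rw [hqr]; simp
  exact natCast_eq_iff_modEq.mp this

lemma aa_g4 : AA 2 (fun x => ∃ q : ℕ, q.Prime ∧ q % 8 = 5 ∧ q ∣ x 0 ∧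
    ¬ IsSquare ((2 : ZMod q) * (x 1 : ZMod q))) := by
  have hu : IsUnit ((5 : ℕ) : ZMod 8) := (ZMod.isUnit_iff_coprime 5 8).mpr (by norm_num)
  have h := AA.of_card (w := 8) (r := ((5 : ℕ) : ZMod 8)) hu 2 (fun q y => ¬ IsSquare ((2 : ZMod q) * y))
    (by
      intro q hq _ hy
      have hfact : Fact q.Prime := ⟨hq⟩
      have h2 : (2 : ZMod q) ≠ 0 := by
        intro h0
        have : ((2 : ℕ) : ZMod q) = 0 := by exact_mod_cast h0
        have := Nat.le_of_dvd (by norm_num) ((ZMod.natCast_eq_zero_iff _ _).mp this)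
        omega
      have h1 := card_nonsq (q := q) (by omega) (s := 2) h2
      refine h1.trans (Nat.mul_le_mul_left 4 ?_)
      apply Nat.card_le_card_of_injective
        (fun y : {y : ZMod q // y ≠ 0 ∧ ¬ IsSquare ((2 : ZMod q) * y)} =>
          (⟨y.1, y.2.2⟩ : {y : ZMod q // ¬ IsSquare ((2 : ZMod q) * y)}))
      intro y1 y2 h12
      have h13 := congrArg Subtype.val h12
      exact Subtype.ext h13)
  refine h.mono ?_
  rintro x ⟨q, hq, hqr, _, hd, hx⟩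
  exact ⟨q, hq, natCast_eq_iff_modEq.mp hqr, hd, hx⟩

/-- A residue class of primes modulo which `p₀` is not a square but all the other primes up to `K`
are. -/
lemma exists_class (K p₀ : ℕ) (hp₀ : p₀.Prime) :
    ∃ (w r : ℕ), 0 < w ∧ Nat.Coprime r w ∧ ∀ q : ℕ, q.Prime → q ≡ r [MOD w] →
      ¬ IsSquare (p₀ : ZMod q) ∧ ∀ p : ℕ, p.Prime → p ≤ K → p ≠ p₀ → IsSquare (p : ZMod q) := by
  have hprod : ∀ p : ℕ, p.Prime → p ≤ K → p ≠ p₀ → p ∣ ∏ p ∈ (PP K).erase p₀, p := by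
    intro p hp hpK hne
    apply Finset.dvd_prod_of_mem
    rw [Finset.mem_erase, mem_PP]
    exact ⟨hne, hp, hpK⟩
  have hcopr : Nat.Coprime p₀ (∏ p ∈ (PP K).erase p₀, p) := by
    apply Nat.Coprime.prod_right
    intro p hp
    rw [Finset.mem_erase, mem_PP] at hp
    exact (Nat.coprime_primes hp₀ hp.2.1).mpr (Ne.symm hp.1)
  have hpos : 0 < ∏ p ∈ (PP K).erase p₀, p := by
    apply Finset.prod_pos
    intro p hp
    rw [Finset.mem_erase, mem_PP] at hp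
    exact hp.2.1.pos
  have hcong : ∀ (w1 w2 α : ℕ), Nat.Coprime w1 w2 → Nat.Coprime α w1 →
      ∃ r : ℕ, Nat.Coprime r (w1 * w2) ∧ ∀ q : ℕ, q ≡ r [MOD w1 * w2] → q ≡ α [MOD w1] ∧ q ≡ 1 [MOD w2] := by
    intro w1 w2 α h12 hα
    obtain ⟨r, hr1, hr2⟩ := Nat.chineseRemainder h12 α 1
    refine ⟨r, ?_, ?_⟩
    · apply Nat.Coprime.mul_right
      · have : Nat.gcd r w1 = Nat.gcd α w1 := hr1.gcd_eq
        rw [Nat.coprime_iff_gcd_eq_one, this]
        exact hα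
      · have : Nat.gcd r w2 = Nat.gcd 1 w2 := hr2.gcd_eq
        rw [Nat.coprime_iff_gcd_eq_one, this]
        simp
    · intro q hq
      exact ⟨(hq.of_dvd (Dvd.intro _ rfl)).trans hr1, (hq.of_dvd (Dvd.intro_left _ rfl)).trans hr2⟩
  rcases eq_or_ne p₀ 2 with rfl | hp2
  · have h12 : Nat.Coprime 8 (∏ p ∈ (PP K).erase 2, p) := by
      have : Nat.Coprime (2 ^ 3) (∏ p ∈ (PP K).erase 2, p) := hcopr.pow_left 3
      exact this
    obtain ⟨r, hr, hr'⟩ := hcong 8 _ 5 h12 (by norm_num)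
    refine ⟨_, r, Nat.mul_pos (by norm_num) hpos, hr, ?_⟩
    intro q hq hqr
    have hfact : Fact q.Prime := ⟨hq⟩
    obtain ⟨h8, h1⟩ := hr' q hqr
    have h8' : q % 8 = 5 := h8
    have hq2 : q ≠ 2 := by omega
    refine ⟨?_, ?_⟩
    · intro hsq
      have := (ZMod.exists_sq_eq_two_iff hq2).mp (by exact_mod_cast hsq)
      omega
    · intro p hp hpK hne
      have hfp : Fact p.Prime := ⟨hp⟩
      have h3 : q ≡ 1 [MOD p] := h1.of_dvd (hprod p hp hpK hne)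
      have h4 : ((q : ℕ) : ZMod p) = ((1 : ℕ) : ZMod p) := natCast_eq_iff_modEq.mpr h3
      rw [ZMod.exists_sq_eq_prime_iff_of_mod_four_eq_one (p := q) (q := p) (by omega) hne, h4]
      simp
  · have hfp₀ : Fact p₀.Prime := ⟨hp₀⟩
    have hodd : p₀ % 2 = 1 := hp₀.eq_two_or_odd.resolve_left hp2
    obtain ⟨α, hα0, hα⟩ : ∃ α : ZMod p₀, α ≠ 0 ∧ ¬ IsSquare α := by
      have h1 := card_nonsq (q := p₀) hp2 (s := 1) one_ne_zero
      have h2 : 0 < Nat.card {y : ZMod p₀ // y ≠ 0 ∧ ¬ IsSquare ((1 : ZMod p₀) * y)} := by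
        by_contra h0
        have := hp₀.pos
        omega
      obtain ⟨⟨y, hy⟩⟩ := (Nat.card_pos_iff.mp h2).1
      exact ⟨y, hy.1, by have := hy.2; rwa [one_mul] at this⟩
    have h12 : Nat.Coprime p₀ (8 * ∏ p ∈ (PP K).erase p₀, p) := by
      apply Nat.Coprime.mul_right _ hcopr
      have : Nat.Coprime p₀ (2 ^ 3) :=
        ((Nat.coprime_primes hp₀ Nat.prime_two).mpr hp2).pow_right 3
      exact this
    have hαc : Nat.Coprime α.val p₀ := by
      rw [Nat.coprime_comm, Nat.Prime.coprime_iff_not_dvd hp₀]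
      intro hd
      apply hα0
      have h3 : ((α.val : ℕ) : ZMod p₀) = 0 := (ZMod.natCast_eq_zero_iff _ _).mpr hd
      rwa [ZMod.natCast_zmod_val] at h3
    obtain ⟨r, hr, hr'⟩ := hcong p₀ _ α.val h12 hαc
    refine ⟨_, r, Nat.mul_pos hp₀.pos (Nat.mul_pos (by norm_num) hpos), hr, ?_⟩
    intro q hq hqr
    have hfact : Fact q.Prime := ⟨hq⟩
    obtain ⟨hqα, h1⟩ := hr' q hqr
    have h8 : q ≡ 1 [MOD 8] := h1.of_dvd (Dvd.intro _ rfl)
    have h8' : q % 8 = 1 := h8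
    have hq2 : q ≠ 2 := by omega
    refine ⟨?_, ?_⟩
    · rw [ZMod.exists_sq_eq_prime_iff_of_mod_four_eq_one (p := q) (q := p₀) (by omega) hp2]
      have h4 : ((q : ℕ) : ZMod p₀) = ((α.val : ℕ) : ZMod p₀) := natCast_eq_iff_modEq.mpr hqα
      rw [h4, ZMod.natCast_zmod_val]
      exact hα
    · intro p hp hpK hne
      have hfp : Fact p.Prime := ⟨hp⟩
      rcases eq_or_ne p 2 with rfl | hpp2
      · have := (ZMod.exists_sq_eq_two_iff hq2).mpr (Or.inl h8')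
        exact_mod_cast this
      · have h3 : q ≡ 1 [MOD p] :=
          (h1.of_dvd (Dvd.intro_left _ rfl)).of_dvd (hprod p hp hpK hne)
        have h4 : ((q : ℕ) : ZMod p) = ((1 : ℕ) : ZMod p) := natCast_eq_iff_modEq.mpr h3
        rw [ZMod.exists_sq_eq_prime_iff_of_mod_four_eq_one (p := q) (q := p) (by omega) hpp2, h4]
        simp

lemma aa_g3 (K p₀ : ℕ) (hp₀ : p₀.Prime) : AA 2 (fun x => ∃ q : ℕ, q.Prime ∧ q ∣ x 0 ∧
    ¬ IsSquare (p₀ : ZMod q) ∧ ∀ p : ℕ, p.Prime → p ≤ K → p ≠ p₀ → IsSquare (p : ZMod q)) := by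
  obtain ⟨w, r, hw, hr, hwr⟩ := exists_class K p₀ hp₀
  have hne : NeZero w := ⟨hw.ne'⟩
  have hu : IsUnit ((r : ℕ) : ZMod w) := (ZMod.isUnit_iff_coprime r w).mpr hr
  have h := AA.of_card (w := w) (r := ((r : ℕ) : ZMod w)) hu 0 (fun q y => True)
    (by
      intro q hq _ hy
      have hfact : Fact q.Prime := ⟨hq⟩
      have h1 : Nat.card {y : ZMod q // True} = q := by
        rw [Nat.card_congr (Equiv.subtypeUnivEquiv (fun _ => trivial)), Nat.card_eq_fintype_card,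
          ZMod.card]
      rw [h1]; omega)
  refine h.mono ?_
  rintro x ⟨q, hq, hqr, _, hd, -⟩
  obtain ⟨h1, h2⟩ := hwr q hq (natCast_eq_iff_modEq.mp hqr)
  exact ⟨q, hq, hd, h1, h2⟩

lemma aa_genSq (K : ℕ) : AA 2 (fun x => GenSq K (x 0) (x 1)) := by
  have h3 : AA 2 (fun x => ∀ p₀ ∈ PP K, ∃ q : ℕ, q.Prime ∧ q ∣ x 0 ∧
    ¬ IsSquare (p₀ : ZMod q) ∧ ∀ p : ℕ, p.Prime → p ≤ K → p ≠ p₀ → IsSquare (p : ZMod q)) :=
    AA.forall_finset (PP K) (fun p₀ hp₀ => aa_g3 K p₀ (mem_PP.mp hp₀).1)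
  refine (((aa_g1 K).and (aa_g2 K)).and (h3.and aa_g4)).mono ?_
  rintro x ⟨⟨h1, h2⟩, h3, h4⟩
  exact ⟨h1, h2, fun p₀ hp₀ hp₀K => h3 p₀ (mem_PP.mpr ⟨hp₀, hp₀K⟩), h4⟩

/-- The reduced smooth numbers. -/
def redSmooth (K ℓ : ℕ) (e : Fin (K + 1) → Fin ℓ) : ℕ :=
  ∏ p : Fin (K + 1), if (p : ℕ).Prime then (p : ℕ) ^ (e p : ℕ) else 1

lemma redSmooth_ne_zero (K ℓ : ℕ) (e : Fin (K + 1) → Fin ℓ) : redSmooth K ℓ e ≠ 0 := by
  unfold redSmooth
  apply Finset.prod_ne_zero_iff.mpr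
  intro p _
  split_ifs with h
  · exact pow_ne_zero _ h.ne_zero
  · exact one_ne_zero

lemma redSmooth_noLarge (K ℓ : ℕ) (e : Fin (K + 1) → Fin ℓ) : NoLarge K (redSmooth K ℓ e) := by
  intro p hp hd
  obtain ⟨i, _, hi⟩ := (hp.prime.dvd_finsetProd_iff _).mp hd
  split_ifs at hi with h
  · have := (Nat.prime_dvd_prime_iff_eq hp h).mp (hp.dvd_of_dvd_pow hi)
    rw [this]
    omega
  · exact absurd (Nat.dvd_one.mp hi) hp.one_lt.ne'

lemma prod_fin_eq_self {K s : ℕ} (hs0 : s ≠ 0) (hs : NoLarge K s) :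
    ∏ p : Fin (K + 1), (if (p : ℕ).Prime then (p : ℕ) ^ (s.factorization p) else 1) = s := by
  rw [Fin.prod_univ_eq_prod_range (fun p => if p.Prime then p ^ (s.factorization p) else 1) (K + 1)]
  rw [← Finset.prod_filter]
  conv_rhs => rw [← Nat.prod_factorization_pow_eq_self hs0]
  rw [Finsupp.prod, Nat.support_factorization]
  symm
  apply Finset.prod_subset
  · intro p hp
    have hpp := Nat.prime_of_mem_primeFactors hp
    rw [Finset.mem_filter, Finset.mem_range]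
    exact ⟨Nat.lt_succ_of_le (hs p hpp (Nat.dvd_of_mem_primeFactors hp)), hpp⟩
  · intro p hp hnp
    rw [Finset.mem_filter] at hp
    have : ¬ p ∣ s := fun hd => hnp (Nat.mem_primeFactors.mpr ⟨hp.2, hd, hs0⟩)
    rw [Nat.factorization_eq_zero_of_not_dvd this, pow_zero]

lemma exists_red {K ℓ s : ℕ} (hℓ : 0 < ℓ) (hs0 : s ≠ 0) (hs : NoLarge K s) :
    ∃ (e : Fin (K + 1) → Fin ℓ) (u : ℕ), s = redSmooth K ℓ e * u ^ ℓ := by
  refine ⟨fun p => ⟨s.factorization p % ℓ, Nat.mod_lt _ hℓ⟩,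
    ∏ p : Fin (K + 1), (if (p : ℕ).Prime then (p : ℕ) ^ (s.factorization p / ℓ) else 1), ?_⟩
  rw [redSmooth, ← Finset.prod_pow, ← Finset.prod_mul_distrib]
  conv_lhs => rw [← prod_fin_eq_self hs0 hs]
  apply Finset.prod_congr rfl
  intro p _
  split_ifs with h
  · rw [← pow_mul, ← pow_add]
    congr 1
    exact (Nat.mod_add_div' _ _).symm
  · simp

/-- The generic conditions for an odd prime `ℓ`. -/
lemma aa_nonres (K ℓ : ℕ) (hℓ : ℓ.Prime) :
    AA 2 (fun x => NonRes {p | p ≤ K} ℓ (x 0) (x 1)) := by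
  have hne : NeZero ℓ := ⟨hℓ.ne_zero⟩
  have h : AA 2 (fun x => ∀ e : Fin (K + 1) → Fin ℓ, ∃ q : ℕ, q.Prime ∧ (q : ZMod ℓ) = 1 ∧ K < q ∧
      q ∣ x 0 ∧ ∀ z : ZMod q, (redSmooth K ℓ e : ZMod q) * (x 1 : ZMod q) ≠ z ^ ℓ) := by
    apply AA.forall_fintype
    intro e
    apply AA.of_card (w := ℓ) (r := 1) isUnit_one K
      (fun q y => ∀ z : ZMod q, (redSmooth K ℓ e : ZMod q) * y ≠ z ^ ℓ)
    intro q hq hqr hy
    have hfact : Fact q.Prime := ⟨hq⟩
    have hs : (redSmooth K ℓ e : ZMod q) ≠ 0 := by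
      intro h0
      have hd := (ZMod.natCast_eq_zero_iff _ _).mp h0
      have := redSmooth_noLarge K ℓ e q hq hd
      omega
    have hdvd : ℓ ∣ q - 1 := by
      have h1 : ((q : ℕ) : ZMod ℓ) = ((1 : ℕ) : ZMod ℓ) := by rw [hqr]; simp
      have h2 : q ≡ 1 [MOD ℓ] := natCast_eq_iff_modEq.mp h1
      exact (Nat.modEq_iff_dvd' hq.one_lt.le).mp h2.symm
    have h1 := card_nonpow (q := q) hℓ hdvd hs
    refine h1.trans (Nat.mul_le_mul_left 4 ?_)
    apply Nat.card_le_card_of_injective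
      (fun y : {y : ZMod q // y ≠ 0 ∧ ∀ z : ZMod q, (redSmooth K ℓ e : ZMod q) * y ≠ z ^ ℓ} =>
        (⟨y.1, y.2.2⟩ : {y : ZMod q // ∀ z : ZMod q, (redSmooth K ℓ e : ZMod q) * y ≠ z ^ ℓ}))
    intro y1 y2 h12
    have h13 := congrArg Subtype.val h12
    exact Subtype.ext h13
  refine h.mono ?_
  intro x hx s hs0 hs
  obtain ⟨e, u, hsu⟩ := exists_red (K := K) hℓ.pos hs0 hs
  obtain ⟨q, hq, _, hKq, hd, hz⟩ := hx e
  have hfact : Fact q.Prime := ⟨hq⟩
  refine ⟨q, hq, hd, ?_⟩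
  intro z hzz
  have hu0 : (u : ZMod q) ≠ 0 := by
    intro h0
    have hqu := (ZMod.natCast_eq_zero_iff _ _).mp h0
    have hqs : q ∣ s := by
      rw [hsu]
      exact Dvd.dvd.mul_left (dvd_pow hqu hℓ.ne_zero) _
    have : q ≤ K := hs q hq hqs
    omega
  apply hz (z / u)
  have huℓ : (u : ZMod q) ^ ℓ ≠ 0 := pow_ne_zero _ hu0
  rw [div_pow, eq_div_iff huℓ, ← hzz]
  rw [hsu]
  push_cast
  ring

/-- The generic conditions on a pair. -/
structure GenPair (K a b : ℕ) : Prop where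
  sq : GenSq K a b
  sq' : GenSq K b a
  res : ∀ ℓ : ℕ, ℓ.Prime → ℓ ≤ K → NonRes {p | p ≤ K} ℓ a b
  res' : ∀ ℓ : ℕ, ℓ.Prime → ℓ ≤ K → NonRes {p | p ≤ K} ℓ b a

lemma aa_genPair (K : ℕ) : AA 2 (fun x => GenPair K (x 0) (x 1)) := by
  have h1 : AA 2 (fun x => ∀ ℓ ∈ PP K, NonRes {p | p ≤ K} ℓ (x 0) (x 1)) :=
    AA.forall_finset (PP K) (fun ℓ hℓ => aa_nonres K ℓ (mem_PP.mp hℓ).1)
  have h2 : AA 2 (fun x => GenSq K (x 0) (x 1) ∧
      ∀ ℓ ∈ PP K, NonRes {p | p ≤ K} ℓ (x 0) (x 1)) := (aa_genSq K).and h1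
  refine (h2.and h2.swap).mono ?_
  rintro x ⟨⟨h3, h4⟩, h5, h6⟩
  refine ⟨h3, by simpa using h5, fun ℓ hℓ hℓK => h4 ℓ (mem_PP.mpr ⟨hℓ, hℓK⟩), fun ℓ hℓ hℓK => ?_⟩
  have := h6 ℓ (mem_PP.mpr ⟨hℓ, hℓK⟩)
  simpa using this

/-- Main consequence for generic pairs. -/
theorem genPair_contra {K a b : ℕ} (hab : Nat.Coprime a b) (h : GenPair K a b) {ℓ : ℕ}
    (hℓ : ℓ.Prime) (hℓK : ℓ ≤ K) {m n s z : ℕ} (hm : 0 < m) (hn : 0 < n) (hs0 : s ≠ 0)
    (hs : NoLarge K s) :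
    a ^ m + b ^ n ≠ s * z ^ ℓ ∧ a ^ m ≠ b ^ n + s * z ^ ℓ ∧ b ^ n ≠ a ^ m + s * z ^ ℓ := by
  rcases hℓ.eq_two_or_odd' with rfl | hodd
  · exact quad_contra hab h.sq h.sq' hm hn hs0 hs
  · have key := descent hℓ hodd (S := {p | p ≤ K}) hℓK hab (h.res ℓ hℓ hℓK) (h.res' ℓ hℓ hℓK) m n hm hn
    refine ⟨?_, ?_, ?_⟩
    · intro heq
      apply key 1 (Or.inl rfl) s z hs0 hs
      rw [one_mul, ← heq]
      exact Int.natAbs_natCast _
    · intro heq
      apply key (-1) (Or.inr rfl) s z hs0 hs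
      have h1 : (a : ℤ) ^ m + -1 * (b : ℤ) ^ n = ((s * z ^ ℓ : ℕ) : ℤ) := by
        have := congrArg (Nat.cast : ℕ → ℤ) heq
        push_cast at this ⊢
        linarith
      rw [h1, Int.natAbs_natCast]
    · intro heq
      apply key (-1) (Or.inr rfl) s z hs0 hs
      have h1 : (a : ℤ) ^ m + -1 * (b : ℤ) ^ n = -((s * z ^ ℓ : ℕ) : ℤ) := by
        have := congrArg (Nat.cast : ℕ → ℤ) heq
        push_cast at this ⊢
        linarith
      rw [h1, Int.natAbs_neg, Int.natAbs_natCast]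

end Pool.Agent.Work.MP_2738db_nt
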