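import Mathlib

set_option autoImplicit false

/-!
Divergence of the sum of reciprocals of the primes in an invertible residue class.
-/

namespace Pool.Agent.Work.MP_2738db_nt

open ArithmeticFunction ArithmeticFunction.vonMangoldt Filter Topology

/-- The function `1/p` supported on the primes `p` in the class `a` modulo `q`. -/
noncomputable def recip {q : ℕ} (a : ZMod q) (n : ℕ) : ℝ :=
  by classical exact if n.Prime ∧ (n : ZMod q) = a then (1 : ℝ) / n else 0

lemma recip_nonneg {q : ℕ} (a : ZMod q) (n : ℕ) : 0 ≤ recip a n := by
  unfold recip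
  split_ifs <;> positivity

lemma log_mul_rpow_le {n : ℕ} (hn : 0 < n) {t : ℝ} (ht : 0 < t) :
    Real.log n / (n : ℝ) ^ (1 + t) ≤ (1 / (n : ℝ)) / t := by
  have hn' : (0 : ℝ) < n := by exact_mod_cast hn
  have h1 : Real.log n ≤ (n : ℝ) ^ t / t := Real.log_le_rpow_div hn'.le ht
  have hpos : (0 : ℝ) < (n : ℝ) ^ (1 + t) := Real.rpow_pos_of_pos hn' _
  rw [div_le_iff₀ hpos]
  have h2 : (n : ℝ) ^ (1 + t) = n * (n : ℝ) ^ t := by
    rw [Real.rpow_add hn', Real.rpow_one]
  rw [h2]
  have h3 : 1 / (n : ℝ) / t * (n * (n : ℝ) ^ t) = (n : ℝ) ^ t / t := by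
    field_simp
  rw [h3]
  exact h1

theorem not_summable_recip {q : ℕ} [NeZero q] {a : ZMod q} (ha : IsUnit a) :
    ¬ Summable (recip a) := by
  intro H
  obtain ⟨C, hC⟩ := LSeries_residueClass_lower_bound ha
  have hg := summable_residueClass_non_primes_div a
  set g : ℕ → ℝ := fun n => (if Nat.Prime n then 0 else residueClass a n) / n with hgdef
  have hφ : (0 : ℝ) < (q.totient : ℝ)⁻¹ := inv_pos.mpr (by exact_mod_cast Nat.totient_pos.mpr (NeZero.pos q))
  -- tail small
  have htail := tendsto_sum_nat_add (recip a)
  obtain ⟨Y, hY⟩ : ∃ Y : ℕ, ∑' k, recip a (k + Y) < (q.totient : ℝ)⁻¹ / 2 := by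
    have := (htail.eventually_lt_const (half_pos hφ)).exists
    exact this
  set F : ℝ := ∑ n ∈ Finset.range Y, recip a n * Real.log (Y + 1) with hF
  set D : ℝ := ∑' n, g n with hD
  -- main inequality
  have main : ∀ t : ℝ, 0 < t → t ≤ 1 → (q.totient : ℝ)⁻¹ / (2 * t) ≤ C + D + F := by
    intro t ht ht1
    have hx : (1 + t) ∈ Set.Ioc (1 : ℝ) 2 := ⟨by linarith, by linarith⟩
    have h0 := hC hx
    have hB1 : Summable (fun n : ℕ => if n < Y then recip a n * Real.log (Y + 1) else recip a n / t) := by
      have hs : Summable (fun n : ℕ => recip a n * (Real.log (Y + 1) + 1 / t)) := H.mul_right _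
      refine Summable.of_nonneg_of_le ?_ ?_ hs
      · intro n
        have := recip_nonneg a n
        have hl : 0 ≤ Real.log ((Y : ℝ) + 1) := Real.log_nonneg (by linarith [Nat.cast_nonneg (α := ℝ) Y])
        split_ifs <;> positivity
      · intro n
        have := recip_nonneg a n
        have hl : 0 ≤ Real.log ((Y : ℝ) + 1) := Real.log_nonneg (by linarith [Nat.cast_nonneg (α := ℝ) Y])
        split_ifs
        · rw [mul_add]
          have : 0 ≤ recip a n * (1 / t) := by positivity
          linarith
        · rw [mul_add, div_eq_mul_one_div]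
          have : 0 ≤ recip a n * Real.log (Y + 1) := by positivity
          linarith
    have hle : ∀ n : ℕ, residueClass a n / (n : ℝ) ^ (1 + t) ≤
        g n + (if n < Y then recip a n * Real.log (Y + 1) else recip a n / t) := by
      intro n
      have hrc := residueClass_nonneg a n
      have hl : 0 ≤ Real.log ((Y : ℝ) + 1) := Real.log_nonneg (by linarith [Nat.cast_nonneg (α := ℝ) Y])
      rcases Nat.eq_zero_or_pos n with h0n | hpos
      · subst h0n
        have : residueClass a 0 = 0 := residueClass_apply_zero a
        rw [this]
        simp only [zero_div, hgdef, Nat.cast_zero, div_zero, zero_add]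
        have := recip_nonneg a 0
        split_ifs <;> positivity
      have hn1 : (1 : ℝ) ≤ n := by exact_mod_cast hpos
      have hn0 : (0 : ℝ) < n := by linarith
      have hpw : (n : ℝ) ≤ (n : ℝ) ^ (1 + t) := by
        conv_lhs => rw [← Real.rpow_one (n : ℝ)]
        exact Real.rpow_le_rpow_of_exponent_le hn1 (by linarith)
      by_cases hp : n.Prime
      · have hgn : g n = 0 := by simp [hgdef, hp]
        rw [hgn, zero_add]
        by_cases hna : (n : ZMod q) = a
        · have hr : residueClass a n = Real.log n := by
            unfold residueClass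
            rw [Set.indicator_of_mem (by simpa using hna)]
            exact vonMangoldt_apply_prime hp
          have hrec : recip a n = 1 / n := by simp [recip, hp, hna]
          rw [hr, hrec]
          split_ifs with hlt
          · have h1 : Real.log n / (n : ℝ) ^ (1 + t) ≤ Real.log n / n := by
              apply div_le_div_of_nonneg_left (Real.log_nonneg hn1) hn0 hpw
            have h2 : Real.log n ≤ Real.log ((Y : ℝ) + 1) := by
              apply Real.log_le_log hn0
              have : (n : ℝ) < Y := by exact_mod_cast hlt
              linarith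
            calc Real.log n / (n : ℝ) ^ (1 + t) ≤ Real.log n / n := h1
              _ = 1 / n * Real.log n := by ring
              _ ≤ 1 / n * Real.log (Y + 1) := by
                  apply mul_le_mul_of_nonneg_left h2 (by positivity)
          · exact log_mul_rpow_le hpos ht
        · have hr : residueClass a n = 0 := by
            unfold residueClass
            rw [Set.indicator_of_notMem (by simpa using hna)]
          rw [hr, zero_div]
          have := recip_nonneg a n
          split_ifs <;> positivity
      · have hgn : g n = residueClass a n / n := by simp [hgdef, hp]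
        rw [hgn]
        have h1 : residueClass a n / (n : ℝ) ^ (1 + t) ≤ residueClass a n / n :=
          div_le_div_of_nonneg_left hrc hn0 hpw
        have := recip_nonneg a n
        have h2 : 0 ≤ (if n < Y then recip a n * Real.log (Y + 1) else recip a n / t) := by
          split_ifs <;> positivity
        linarith
    have hsum : Summable (fun n : ℕ => g n + (if n < Y then recip a n * Real.log (Y + 1) else recip a n / t)) :=
      hg.add hB1
    have hlhs : Summable (fun n : ℕ => residueClass a n / (n : ℝ) ^ (1 + t)) := by
      refine Summable.of_nonneg_of_le (fun n => ?_) hle hsum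
      have := residueClass_nonneg a n
      positivity
    have h1 := hlhs.tsum_le_tsum hle hsum
    rw [hg.tsum_add hB1] at h1
    have h2 : ∑' n : ℕ, (if n < Y then recip a n * Real.log (Y + 1) else recip a n / t)
        = F + (∑' k, recip a (k + Y)) / t := by
      rw [← hB1.sum_add_tsum_nat_add Y]
      congr 1
      · rw [hF]
        apply Finset.sum_congr rfl
        intro n hn
        rw [if_pos (Finset.mem_range.mp hn)]
      · rw [← tsum_div_const]
        apply tsum_congr
        intro k
        rw [if_neg (by omega)]
    rw [h2] at h1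
    have h3 : (∑' k, recip a (k + Y)) / t ≤ (q.totient : ℝ)⁻¹ / 2 / t := by
      apply div_le_div_of_nonneg_right hY.le ht.le
    have e1 : (1 + t - 1) = t := by ring
    rw [e1] at h0
    have e2 : (q.totient : ℝ)⁻¹ / t = (q.totient : ℝ)⁻¹ / (2 * t) + (q.totient : ℝ)⁻¹ / 2 / t := by
      field_simp; ring
    linarith
  -- contradiction
  have hpos : 0 < C + D + F := by
    have := main 1 one_pos le_rfl
    have h' : 0 < (q.totient : ℝ)⁻¹ / (2 * 1) := by positivity
    linarith
  set E := C + D + F with hE
  set φi := (q.totient : ℝ)⁻¹ with hφi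
  have hlast := main (min 1 (φi / (4 * E))) (lt_min one_pos (by positivity)) (min_le_left _ _)
  have hmin : min 1 (φi / (4 * E)) ≤ φi / (4 * E) := min_le_right _ _
  have hminpos : 0 < min 1 (φi / (4 * E)) := lt_min one_pos (by positivity)
  rw [div_le_iff₀ (by positivity)] at hlast
  have : E * (2 * min 1 (φi / (4 * E))) ≤ E * (2 * (φi / (4 * E))) := by
    apply mul_le_mul_of_nonneg_left _ hpos.le
    linarith
  have e3 : E * (2 * (φi / (4 * E))) = φi / 2 := by
    field_simp
    ring
  linarith

/-- Partial sums of the reciprocals of primes in a class are unbounded. -/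
theorem tendsto_sum_recip {q : ℕ} [NeZero q] {a : ZMod q} (ha : IsUnit a) :
    Tendsto (fun y : ℕ => ∑ n ∈ Finset.range y, recip a n) atTop atTop :=
  (not_summable_iff_tendsto_nat_atTop_of_nonneg (recip_nonneg a)).mp (not_summable_recip ha)

end Pool.Agent.Work.MP_2738db_nt
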