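import Mathlib

set_option autoImplicit false

/-!
Counting residues which are not `ℓ`-th powers, and quadratic residues of smooth numbers.
-/

namespace Pool.Agent.Work.MP_2738db_nt

/-- At least a quarter of the residues `y` are nonzero with `s * y` not an `ℓ`-th power. -/
theorem card_nonpow {q ℓ : ℕ} [hq : Fact q.Prime] (hℓ : ℓ.Prime) (h : ℓ ∣ q - 1) {s : ZMod q}
    (hs : s ≠ 0) : q ≤ 4 * Nat.card {y : ZMod q // y ≠ 0 ∧ ∀ z : ZMod q, s * y ≠ z ^ ℓ} := by
  classical
  have hfact : Fact ℓ.Prime := ⟨hℓ⟩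
  let f : (ZMod q)ˣ →* (ZMod q)ˣ := powMonoidHom ℓ
  let H : Subgroup (ZMod q)ˣ := f.range
  have hcardG : Fintype.card (ZMod q)ˣ = q - 1 := ZMod.card_units q
  have hcardG' : Nat.card (ZMod q)ˣ = q - 1 := by rw [Nat.card_eq_fintype_card, hcardG]
  have hH : H ≠ ⊤ := by
    intro htop
    have hsurj : Function.Surjective f := MonoidHom.range_eq_top.mp htop
    have hinj : Function.Injective f := Finite.injective_iff_surjective.mpr hsurj
    obtain ⟨x, hx⟩ := exists_prime_orderOf_dvd_card (G := (ZMod q)ˣ) ℓ (by rw [hcardG]; exact h)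
    have h1 : f x = f 1 := by
      simp only [f, powMonoidHom_apply, one_pow]
      rw [← hx]
      exact pow_orderOf_eq_one x
    have h2 := hinj h1
    rw [h2, orderOf_one] at hx
    exact hℓ.one_lt.ne hx
  have hidx : 2 ≤ H.index := by
    have h0 : H.index ≠ 0 := Subgroup.FiniteIndex.index_ne_zero
    have h1 : H.index ≠ 1 := fun h => hH (Subgroup.index_eq_one.mp h)
    omega
  have h2 : 2 * Nat.card H ≤ q - 1 := by
    have := Subgroup.card_mul_index H
    rw [hcardG'] at this
    calc 2 * Nat.card H ≤ H.index * Nat.card H := Nat.mul_le_mul_right _ hidx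
      _ = Nat.card H * H.index := mul_comm _ _
      _ = q - 1 := this
  let su : (ZMod q)ˣ := Units.mk0 s hs
  have h3 : Nat.card {y : (ZMod q)ˣ // su * y ∈ H} = Nat.card H := by
    apply Nat.card_congr
    exact
      { toFun := fun y => ⟨su * y.1, y.2⟩
        invFun := fun y => ⟨su⁻¹ * y.1, by rw [mul_inv_cancel_left]; exact y.2⟩
        left_inv := fun y => by
          apply Subtype.ext
          simp only [inv_mul_cancel_left]
        right_inv := fun y => by
          apply Subtype.ext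
          simp only [mul_inv_cancel_left] }
  have h4 : Nat.card {y : (ZMod q)ˣ // su * y ∈ H} + Nat.card {y : (ZMod q)ˣ // ¬ su * y ∈ H}
      = q - 1 := by
    rw [← hcardG', Nat.card_eq_fintype_card, Nat.card_eq_fintype_card, Nat.card_eq_fintype_card,
      Fintype.card_subtype_compl]
    have := Fintype.card_subtype_le (fun y : (ZMod q)ˣ => su * y ∈ H)
    omega
  have h5 : Nat.card {y : (ZMod q)ˣ // ¬ su * y ∈ H} ≤
      Nat.card {y : ZMod q // y ≠ 0 ∧ ∀ z : ZMod q, s * y ≠ z ^ ℓ} := by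
    let g : {y : (ZMod q)ˣ // ¬ su * y ∈ H} →
        {y : ZMod q // y ≠ 0 ∧ ∀ z : ZMod q, s * y ≠ z ^ ℓ} :=
      fun y => ⟨(y.1 : ZMod q), y.1.ne_zero, by
        intro z hz
        have hz0 : z ≠ 0 := by
          rintro rfl
          rw [zero_pow hℓ.ne_zero] at hz
          rcases mul_eq_zero.mp hz with h | h
          · exact hs h
          · exact y.1.ne_zero h
        apply y.2
        refine ⟨Units.mk0 z hz0, ?_⟩
        apply Units.ext
        simp only [f, powMonoidHom_apply, Units.val_pow_eq_pow_val, Units.val_mk0, Units.val_mul, su]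
        exact hz.symm⟩
    apply Nat.card_le_card_of_injective g
    intro y1 y2 h12
    have : (y1.1 : ZMod q) = (y2.1 : ZMod q) := congrArg Subtype.val h12
    exact Subtype.ext (Units.ext this)
  have h6 := hq.out.two_le
  omega

/-- Every odd prime is `1` modulo `2`, so the previous count applies to squares. -/
theorem card_nonsq {q : ℕ} [hq : Fact q.Prime] (hq2 : q ≠ 2) {s : ZMod q} (hs : s ≠ 0) :
    q ≤ 4 * Nat.card {y : ZMod q // y ≠ 0 ∧ ¬ IsSquare (s * y)} := by
  have h1 : 2 ∣ q - 1 := by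
    have := hq.out.eq_two_or_odd.resolve_left hq2
    omega
  have h2 := card_nonpow (q := q) Nat.prime_two h1 hs
  have h3 : Nat.card {y : ZMod q // y ≠ 0 ∧ ∀ z : ZMod q, s * y ≠ z ^ 2} =
      Nat.card {y : ZMod q // y ≠ 0 ∧ ¬ IsSquare (s * y)} := by
    apply Nat.card_congr
    apply Equiv.subtypeEquivRight
    intro y
    constructor
    · rintro ⟨h, h'⟩
      refine ⟨h, ?_⟩
      rintro ⟨z, hz⟩
      exact h' z (by rw [hz]; ring)
    · rintro ⟨h, h'⟩
      refine ⟨h, ?_⟩
      intro z hz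
      exact h' ⟨z, by rw [hz]; ring⟩
  rw [← h3]
  exact h2

/-- `s` has no prime factor larger than `K`. -/
def NoLarge (K s : ℕ) : Prop := ∀ p : ℕ, p.Prime → p ∣ s → p ≤ K

lemma NoLarge.mul {K s t : ℕ} (hs : NoLarge K s) (ht : NoLarge K t) : NoLarge K (s * t) := by
  intro p hp hd
  rcases hp.dvd_mul.mp hd with h | h
  · exact hs p hp h
  · exact ht p hp h

lemma NoLarge.pow {K s : ℕ} (hs : NoLarge K s) (n : ℕ) : NoLarge K (s ^ n) := by
  intro p hp hd
  exact hs p hp (hp.dvd_of_dvd_pow hd)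

lemma NoLarge.of_mul_left {K s t : ℕ} (hs : NoLarge K (s * t)) : NoLarge K s :=
  fun p hp hd => hs p hp (hd.mul_right t)

lemma noLarge_one (K : ℕ) : NoLarge K 1 := by
  intro p hp hd
  exact absurd (Nat.dvd_one.mp hd) hp.one_lt.ne'

/-- If all primes up to `K` are squares modulo `q`, so are all numbers without larger prime
factors. -/
lemma isSquare_of_noLarge {K q : ℕ} (h : ∀ p : ℕ, p.Prime → p ≤ K → IsSquare (p : ZMod q)) :
    ∀ s : ℕ, s ≠ 0 → NoLarge K s → IsSquare (s : ZMod q) := by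
  intro s
  induction s using Nat.recOnMul with
  | zero => intro h0; exact absurd rfl h0
  | one => intro _ _; simp
  | prime p hp => intro _ hs; exact h p hp (hs p hp dvd_rfl)
  | mul a b iha ihb =>
    intro h0 hs
    have ha0 : a ≠ 0 := left_ne_zero_of_mul h0
    have hb0 : b ≠ 0 := right_ne_zero_of_mul h0
    have ha : NoLarge K a := hs.of_mul_left
    have hb : NoLarge K b := by
      rw [mul_comm] at hs
      exact hs.of_mul_left
    push_cast
    exact (iha ha0 ha).mul (ihb hb0 hb)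

/-- The modulus used for quadratic conditions. -/
def WW (K : ℕ) : ℕ := 8 * primorial K

lemma WW_pos (K : ℕ) : 0 < WW K := Nat.mul_pos (by norm_num) (primorial_pos K)

lemma dvd_WW {K p : ℕ} (hp : p.Prime) (hpK : p ≤ K) : p ∣ WW K := by
  apply Dvd.dvd.mul_left
  exact Finset.dvd_prod_of_mem _ (by simp [hp]; omega)

lemma isSquare_of_one {K q : ℕ} [Fact q.Prime] (hq : q ≡ 1 [MOD WW K]) {p : ℕ} (hp : p.Prime)
    (hpK : p ≤ K) : IsSquare (p : ZMod q) := by
  haveI : Fact p.Prime := ⟨hp⟩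
  have h8 : q % 8 = 1 := by
    have : q ≡ 1 [MOD 8] := hq.of_dvd (Dvd.intro _ rfl)
    exact this
  have h4 : q % 4 = 1 := by omega
  rcases eq_or_ne p 2 with rfl | hp2
  · have hq2 : q ≠ 2 := by omega
    have := (ZMod.exists_sq_eq_two_iff hq2).mpr (Or.inl h8)
    exact_mod_cast this
  · have h1 : q ≡ 1 [MOD p] := hq.of_dvd (dvd_WW hp hpK)
    have h2 : ((q : ℕ) : ZMod p) = ((1 : ℕ) : ZMod p) := (ZMod.natCast_eq_natCast_iff _ _ _).mpr h1
    have h3 := (ZMod.exists_sq_eq_prime_iff_of_mod_four_eq_one (p := q) (q := p) h4 hp2)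
    rw [h3, h2]
    simp

lemma isSquare_of_neg_one {K q : ℕ} [hqf : Fact q.Prime] (hq : q + 1 ≡ 0 [MOD WW K]) {p : ℕ}
    (hp : p.Prime) (hpK : p ≤ K) : IsSquare (p : ZMod q) := by
  haveI : Fact p.Prime := ⟨hp⟩
  have h8 : q % 8 = 7 := by
    have : q + 1 ≡ 0 [MOD 8] := hq.of_dvd (Dvd.intro _ rfl)
    have h' : (q + 1) % 8 = 0 := this
    omega
  have h4 : q % 4 = 3 := by omega
  rcases eq_or_ne p 2 with rfl | hp2
  · have hq2 : q ≠ 2 := by omega
    have := (ZMod.exists_sq_eq_two_iff hq2).mpr (Or.inr h8)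
    exact_mod_cast this
  · have hq2 : q ≠ 2 := by omega
    have h1 : q + 1 ≡ 0 [MOD p] := hq.of_dvd (dvd_WW hp hpK)
    have h2 : ((q + 1 : ℕ) : ZMod p) = ((0 : ℕ) : ZMod p) := (ZMod.natCast_eq_natCast_iff _ _ _).mpr h1
    have h3 : (q : ZMod p) = -1 := by
      push_cast at h2
      exact eq_neg_of_add_eq_zero_left h2
    have hpodd : p % 2 = 1 := hp.eq_two_or_odd.resolve_left hp2
    rcases (show p % 4 = 1 ∨ p % 4 = 3 by omega) with h | h
    · have h5 := (ZMod.exists_sq_eq_prime_iff_of_mod_four_eq_one (p := p) (q := q) h hq2)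
      apply h5.mp
      rw [h3]
      exact ZMod.exists_sq_eq_neg_one_iff.mpr (by omega)
    · have hne : p ≠ q := by
        rintro rfl
        have : p ∣ p + 1 := (Nat.modEq_zero_iff_dvd).mp h1
        have h6 : p ∣ 1 := (Nat.dvd_add_right dvd_rfl).mp this
        exact hp.one_lt.ne' (Nat.dvd_one.mp h6)
      have h5 := (ZMod.exists_sq_eq_prime_iff_of_mod_four_eq_three (p := p) (q := q) h h4 hne)
      by_contra hcon
      have := h5.mpr hcon
      rw [h3] at this
      exact (ZMod.exists_sq_eq_neg_one_iff.mp this) h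

end Pool.Agent.Work.MP_2738db_nt
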