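import Pool.Agent.Work.MP_2738db_nt.PrimesDiv

set_option autoImplicit false

/-!
A property of `d`-tuples of natural numbers that is certified by congruence conditions on a set of
residue classes of density tending to `1`.
-/

namespace Pool.Agent.Work.MP_2738db_nt

open Filter Topology

/-- `AA d P`: for every `ε > 0` and every large `y`, a set of at least `(1 - ε) M ^ d` residue
vectors modulo `M = primorial y` certifies the property `P`. -/
def AA (d : ℕ) (P : (Fin d → ℕ) → Prop) : Prop :=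
  ∀ ε : ℝ, 0 < ε → ∃ y0 : ℕ, ∀ y : ℕ, y0 ≤ y → ∃ R : Finset (Fin d → ZMod (primorial y)),
    (1 - ε) * (primorial y : ℝ) ^ d ≤ (R.card : ℝ) ∧
      ∀ x : Fin d → ℕ, (fun i => (x i : ZMod (primorial y))) ∈ R → P x

lemma primorial_pos' (y : ℕ) : 0 < primorial y := primorial_pos y

instance (y : ℕ) : NeZero (primorial y) := ⟨(primorial_pos y).ne'⟩

lemma AA.mono {d : ℕ} {P Q : (Fin d → ℕ) → Prop} (h : AA d P) (hPQ : ∀ x, P x → Q x) : AA d Q := by
  intro ε hε
  obtain ⟨y0, hy0⟩ := h ε hε
  refine ⟨y0, fun y hy => ?_⟩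
  obtain ⟨R, hR, hR'⟩ := hy0 y hy
  exact ⟨R, hR, fun x hx => hPQ x (hR' x hx)⟩

lemma AA.and {d : ℕ} {P Q : (Fin d → ℕ) → Prop} (hP : AA d P) (hQ : AA d Q) :
    AA d (fun x => P x ∧ Q x) := by
  classical
  intro ε hε
  obtain ⟨y1, hy1⟩ := hP (ε / 2) (half_pos hε)
  obtain ⟨y2, hy2⟩ := hQ (ε / 2) (half_pos hε)
  refine ⟨max y1 y2, fun y hy => ?_⟩
  obtain ⟨R1, hR1, hR1'⟩ := hy1 y (le_trans (le_max_left _ _) hy)
  obtain ⟨R2, hR2, hR2'⟩ := hy2 y (le_trans (le_max_right _ _) hy)
  refine ⟨R1 ∩ R2, ?_, fun x hx => ⟨hR1' x (Finset.mem_inter.mp hx).1, hR2' x (Finset.mem_inter.mp hx).2⟩⟩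
  have h1 : R1.card + R2.card = (R1 ∪ R2).card + (R1 ∩ R2).card := (Finset.card_union_add_card_inter R1 R2).symm
  have h2 : (R1 ∪ R2).card ≤ (primorial y) ^ d := by
    calc (R1 ∪ R2).card ≤ (Finset.univ : Finset (Fin d → ZMod (primorial y))).card :=
          Finset.card_le_card (Finset.subset_univ _)
      _ = (primorial y) ^ d := by
          rw [Finset.card_univ, Fintype.card_fun, ZMod.card, Fintype.card_fin]
  have h1' : (R1.card : ℝ) + R2.card = (R1 ∪ R2).card + (R1 ∩ R2).card := by exact_mod_cast h1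
  have h2' : ((R1 ∪ R2).card : ℝ) ≤ (primorial y : ℝ) ^ d := by exact_mod_cast h2
  linarith

lemma AA.true' (d : ℕ) : AA d (fun _ => True) := by
  intro ε hε
  refine ⟨0, fun y _ => ⟨Finset.univ, ?_, fun _ _ => trivial⟩⟩
  rw [Finset.card_univ, Fintype.card_fun, ZMod.card, Fintype.card_fin]
  push_cast
  have : (0 : ℝ) ≤ (primorial y : ℝ) ^ d := by positivity
  nlinarith

lemma AA.forall_finset {d : ℕ} {ι : Type*} (s : Finset ι) {P : ι → (Fin d → ℕ) → Prop}
    (h : ∀ i ∈ s, AA d (P i)) : AA d (fun x => ∀ i ∈ s, P i x) := by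
  classical
  induction s using Finset.induction_on with
  | empty => exact (AA.true' d).mono (fun x _ => by simp)
  | insert a s ha ih =>
    have h1 := h a (Finset.mem_insert_self a s)
    have h2 := ih (fun i hi => h i (Finset.mem_insert_of_mem hi))
    refine (h1.and h2).mono ?_
    intro x hx i hi
    rcases Finset.mem_insert.mp hi with rfl | hi
    · exact hx.1
    · exact hx.2 i hi

lemma AA.forall_fintype {d : ℕ} {ι : Type*} [Fintype ι] {P : ι → (Fin d → ℕ) → Prop}
    (h : ∀ i, AA d (P i)) : AA d (fun x => ∀ i, P i x) :=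
  (AA.forall_finset Finset.univ (fun i _ => h i)).mono (fun _ hx i => hx i (Finset.mem_univ i))

/-- The primes up to `y`. -/
def PP (y : ℕ) : Finset ℕ := (Finset.range (y + 1)).filter Nat.Prime

lemma primorial_eq (y : ℕ) : primorial y = ∏ q ∈ PP y, q := rfl

lemma mem_PP {y q : ℕ} : q ∈ PP y ↔ q.Prime ∧ q ≤ y := by
  simp [PP, and_comm]

lemma dvd_primorial_of_mem {y q : ℕ} (h : q ∈ PP y) : q ∣ primorial y :=
  Finset.dvd_prod_of_mem _ h

lemma eq_zero_of_forall_cast {y : ℕ} (z : ZMod (primorial y))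
    (h : ∀ q (hq : q ∈ PP y), (ZMod.castHom (dvd_primorial_of_mem hq) (ZMod q)) z = 0) : z = 0 := by
  have h0 : ∀ N : ℕ, (∀ q ∈ PP y, q ∣ N) → primorial y ∣ N := by
    intro N hN
    rw [primorial_eq]
    exact Finset.prod_primes_dvd N (fun q hq => (mem_PP.mp hq).1.prime) hN
  have h1 : primorial y ∣ z.val := by
    apply h0
    intro q hq
    have h2 := h q hq
    have h3 : ((z.val : ℕ) : ZMod (primorial y)) = z := ZMod.natCast_zmod_val z
    rw [← h3, map_natCast] at h2
    exact (ZMod.natCast_eq_zero_iff _ _).mp h2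
  have h2 : z.val = 0 := Nat.eq_zero_of_dvd_of_lt h1 (ZMod.val_lt z)
  exact (ZMod.val_eq_zero z).mp h2

/-- The sieve bound. -/
lemma card_compl_le {d y : ℕ} (B : (q : ℕ) → (Fin d → ZMod q) → Prop) :
    (Nat.card {v : Fin d → ZMod (primorial y) //
        ∀ q (hq : q ∈ PP y), ¬ B q (fun i => ZMod.castHom (dvd_primorial_of_mem hq) (ZMod q) (v i))} : ℝ)
      ≤ (primorial y : ℝ) ^ d *
        Real.exp (- ∑ q ∈ PP y, (Nat.card {u : Fin d → ZMod q // B q u} : ℝ) / (q : ℝ) ^ d) := by
  classical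
  -- injection into the product
  let ι := {q // q ∈ PP y}
  have hne : ∀ i : ι, NeZero (i : ℕ) := fun i => ⟨(mem_PP.mp i.2).1.ne_zero⟩
  let V : ι → Type := fun i => {u : Fin d → ZMod (i : ℕ) // ¬ B i u}
  have hfin : ∀ i : ι, Fintype (V i) := fun i => by
    haveI := hne i
    infer_instance
  let Φ : {v : Fin d → ZMod (primorial y) //
        ∀ q (hq : q ∈ PP y), ¬ B q (fun i => ZMod.castHom (dvd_primorial_of_mem hq) (ZMod q) (v i))} →
        (∀ i : ι, V i) := fun v i =>
    ⟨fun j => ZMod.castHom (dvd_primorial_of_mem i.2) (ZMod (i : ℕ)) (v.1 j), v.2 i.1 i.2⟩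
  have hΦ : Function.Injective Φ := by
    intro v w hvw
    apply Subtype.ext
    funext j
    have : v.1 j - w.1 j = 0 := by
      apply eq_zero_of_forall_cast
      intro q hq
      have h1 := congrFun hvw ⟨q, hq⟩
      have h2 := congrArg Subtype.val h1
      have h3 := congrFun h2 j
      simp only [Φ] at h3
      rw [map_sub, h3, sub_self]
    exact sub_eq_zero.mp this
  have hcard : Nat.card {v : Fin d → ZMod (primorial y) //
        ∀ q (hq : q ∈ PP y), ¬ B q (fun i => ZMod.castHom (dvd_primorial_of_mem hq) (ZMod q) (v i))}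
        ≤ ∏ i : ι, Nat.card (V i) := by
    rw [← Nat.card_pi]
    haveI : ∀ i, Finite (V i) := fun i => Finite.of_fintype _
    exact Nat.card_le_card_of_injective Φ hΦ
  have hVi : ∀ i : ι, (Nat.card (V i) : ℝ) ≤ ((i : ℕ) : ℝ) ^ d *
      Real.exp (- ((Nat.card {u : Fin d → ZMod (i : ℕ) // B i u} : ℝ) / ((i : ℕ) : ℝ) ^ d)) := by
    intro i
    haveI := hne i
    have hq0 : (0 : ℝ) < ((i : ℕ) : ℝ) := by exact_mod_cast (mem_PP.mp i.2).1.pos
    have h1 : Nat.card (V i) + Nat.card {u : Fin d → ZMod (i : ℕ) // B i u} = (i : ℕ) ^ d := by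
      have h2 : Fintype.card {u : Fin d → ZMod (i : ℕ) // ¬ B i u} =
          Fintype.card (Fin d → ZMod (i : ℕ)) - Fintype.card {u : Fin d → ZMod (i : ℕ) // B i u} :=
        Fintype.card_subtype_compl _
      have h3 : Fintype.card {u : Fin d → ZMod (i : ℕ) // B i u} ≤ Fintype.card (Fin d → ZMod (i : ℕ)) :=
        Fintype.card_subtype_le _
      have h4 : Fintype.card (Fin d → ZMod (i : ℕ)) = (i : ℕ) ^ d := by
        rw [Fintype.card_fun, ZMod.card, Fintype.card_fin]
      have h5 : Nat.card (V i) = Fintype.card {u : Fin d → ZMod (i : ℕ) // ¬ B i u} :=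
        Nat.card_eq_fintype_card
      have h6 : Nat.card {u : Fin d → ZMod (i : ℕ) // B i u} = Fintype.card {u : Fin d → ZMod (i : ℕ) // B i u} :=
        Nat.card_eq_fintype_card
      rw [h5, h6, h2, ← h4]
      omega
    have h1' : (Nat.card (V i) : ℝ) + Nat.card {u : Fin d → ZMod (i : ℕ) // B i u} = ((i : ℕ) : ℝ) ^ d := by
      exact_mod_cast h1
    have hexp := Real.add_one_le_exp (- ((Nat.card {u : Fin d → ZMod (i : ℕ) // B i u} : ℝ) / ((i : ℕ) : ℝ) ^ d))
    have hqd : (0 : ℝ) < ((i : ℕ) : ℝ) ^ d := by positivity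
    calc (Nat.card (V i) : ℝ) = ((i : ℕ) : ℝ) ^ d *
          (-((Nat.card {u : Fin d → ZMod (i : ℕ) // B i u} : ℝ) / ((i : ℕ) : ℝ) ^ d) + 1) := by
          field_simp
          linarith
      _ ≤ _ := mul_le_mul_of_nonneg_left hexp hqd.le
  calc (Nat.card {v : Fin d → ZMod (primorial y) //
        ∀ q (hq : q ∈ PP y), ¬ B q (fun i => ZMod.castHom (dvd_primorial_of_mem hq) (ZMod q) (v i))} : ℝ)
      ≤ ((∏ i : ι, Nat.card (V i) : ℕ) : ℝ) := by exact_mod_cast hcard
    _ = ∏ i : ι, (Nat.card (V i) : ℝ) := by push_cast; rfl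
    _ ≤ ∏ i : ι, (((i : ℕ) : ℝ) ^ d *
      Real.exp (- ((Nat.card {u : Fin d → ZMod (i : ℕ) // B i u} : ℝ) / ((i : ℕ) : ℝ) ^ d))) :=
        Finset.prod_le_prod (fun i _ => by positivity) (fun i _ => hVi i)
    _ = ∏ q ∈ PP y, ((q : ℝ) ^ d *
      Real.exp (- ((Nat.card {u : Fin d → ZMod q // B q u} : ℝ) / (q : ℝ) ^ d))) :=
        Finset.prod_coe_sort (PP y) (fun q => ((q : ℝ) ^ d *
          Real.exp (- ((Nat.card {u : Fin d → ZMod q // B q u} : ℝ) / (q : ℝ) ^ d))))
    _ = (primorial y : ℝ) ^ d *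
        Real.exp (- ∑ q ∈ PP y, (Nat.card {u : Fin d → ZMod q // B q u} : ℝ) / (q : ℝ) ^ d) := by
        rw [Finset.prod_mul_distrib, Finset.prod_pow, ← Real.exp_sum, Finset.sum_neg_distrib,
          primorial_eq]
        push_cast
        rfl

/-- Basic source of almost sure properties. -/
theorem AA.of_primes {d : ℕ} {w : ℕ} [NeZero w] {r : ZMod w} (hr : IsUnit r) (y1 : ℕ)
    (T : (q : ℕ) → (Fin d → ZMod q) → Prop) {c : ℝ} (hc : 0 < c)
    (hT : ∀ q : ℕ, q.Prime → (q : ZMod w) = r → y1 < q →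
      c * (q : ℝ) ^ d ≤ q * (Nat.card {u : Fin d → ZMod q // T q u} : ℝ)) :
    AA d (fun x => ∃ q : ℕ, q.Prime ∧ (q : ZMod w) = r ∧ y1 < q ∧ T q (fun i => (x i : ZMod q))) := by
  classical
  intro ε hε
  -- the modified sets
  let B : (q : ℕ) → (Fin d → ZMod q) → Prop := fun q u => (q : ZMod w) = r ∧ y1 < q ∧ T q u
  have hlow : ∀ y : ℕ, c * (∑ n ∈ Finset.range (y + 1), recip r n - ∑ n ∈ Finset.range (y1 + 1), recip r n)
      ≤ ∑ q ∈ PP y, (Nat.card {u : Fin d → ZMod q // B q u} : ℝ) / (q : ℝ) ^ d := by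
    intro y
    have h1 : ∑ n ∈ Finset.range (y + 1), recip r n - ∑ n ∈ Finset.range (y1 + 1), recip r n
        ≤ ∑ n ∈ Finset.range (y + 1), (if y1 < n then recip r n else 0) := by
      have h2 : ∑ n ∈ Finset.range (y + 1), recip r n =
          ∑ n ∈ Finset.range (y + 1), (if y1 < n then recip r n else 0) +
          ∑ n ∈ Finset.range (y + 1), (if y1 < n then 0 else recip r n) := by
        rw [← Finset.sum_add_distrib]
        apply Finset.sum_congr rfl
        intro n _
        split_ifs <;> simp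
      have h3 : ∑ n ∈ Finset.range (y + 1), (if y1 < n then 0 else recip r n) ≤
          ∑ n ∈ Finset.range (y1 + 1), recip r n := by
        have h4 : ∑ n ∈ Finset.range (y + 1), (if y1 < n then 0 else recip r n) =
            ∑ n ∈ (Finset.range (y + 1)).filter (fun n => ¬ y1 < n), recip r n := by
          rw [Finset.sum_filter]
          apply Finset.sum_congr rfl
          intro n _
          by_cases h : y1 < n <;> simp [h]
        rw [h4]
        apply Finset.sum_le_sum_of_subset_of_nonneg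
        · intro n hn
          simp only [Finset.mem_filter, Finset.mem_range] at hn ⊢
          omega
        · intro n _ _
          exact recip_nonneg r n
      linarith
    have h5 : c * ∑ n ∈ Finset.range (y + 1), (if y1 < n then recip r n else 0) ≤
        ∑ q ∈ PP y, (Nat.card {u : Fin d → ZMod q // B q u} : ℝ) / (q : ℝ) ^ d := by
      rw [PP, Finset.sum_filter, Finset.mul_sum]
      apply Finset.sum_le_sum
      intro q _
      by_cases hq : q.Prime
      · rw [if_pos hq]
        have hq0 : (0 : ℝ) < q := by exact_mod_cast hq.pos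
        by_cases hy : y1 < q
        · rw [if_pos hy]
          by_cases hcl : (q : ZMod w) = r
          · have hrec : recip r q = 1 / q := by simp [recip, hq, hcl]
            have hB : Nat.card {u : Fin d → ZMod q // B q u} = Nat.card {u : Fin d → ZMod q // T q u} := by
              apply Nat.card_congr
              apply Equiv.subtypeEquivRight
              intro u
              simp [B, hcl, hy]
            rw [hrec, hB]
            have := hT q hq hcl hy
            rw [le_div_iff₀ (by positivity)]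
            have h6 : c * (1 / (q : ℝ)) * (q : ℝ) ^ d = (c * (q : ℝ) ^ d) / q := by ring
            rw [h6, div_le_iff₀ hq0]
            linarith
          · have hrec : recip r q = 0 := by simp [recip, hcl]
            rw [hrec, mul_zero]
            positivity
        · rw [if_neg hy, mul_zero]
          positivity
      · rw [if_neg hq]
        have hrec : recip r q = 0 := by simp [recip, hq]
        rw [hrec]
        simp
    calc c * (∑ n ∈ Finset.range (y + 1), recip r n - ∑ n ∈ Finset.range (y1 + 1), recip r n)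
        ≤ c * ∑ n ∈ Finset.range (y + 1), (if y1 < n then recip r n else 0) :=
          mul_le_mul_of_nonneg_left h1 hc.le
      _ ≤ _ := h5
  -- choose y0
  set K0 := ∑ n ∈ Finset.range (y1 + 1), recip r n with hK0
  have htend := (tendsto_sum_recip hr).comp (tendsto_add_atTop_nat 1)
  obtain ⟨y0, hy0⟩ := (tendsto_atTop.mp htend (K0 + (- Real.log ε) / c)).exists_forall_of_atTop
  refine ⟨y0, fun y hy => ?_⟩
  have hbig : K0 + (- Real.log ε) / c ≤ ∑ n ∈ Finset.range (y + 1), recip r n := hy0 y hy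
  let Cset : Finset (Fin d → ZMod (primorial y)) := Finset.univ.filter (fun v =>
    ∀ q (hq : q ∈ PP y), ¬ B q (fun i => ZMod.castHom (dvd_primorial_of_mem hq) (ZMod q) (v i)))
  have hC : (Cset.card : ℝ) ≤ ε * (primorial y : ℝ) ^ d := by
    have h1 := card_compl_le (y := y) B
    have h2 : (Nat.card {v : Fin d → ZMod (primorial y) //
        ∀ q (hq : q ∈ PP y), ¬ B q (fun i => ZMod.castHom (dvd_primorial_of_mem hq) (ZMod q) (v i))}) = Cset.card := by
      rw [Nat.card_eq_fintype_card, Fintype.card_subtype]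
    rw [h2] at h1
    have h3 : Real.exp (- ∑ q ∈ PP y, (Nat.card {u : Fin d → ZMod q // B q u} : ℝ) / (q : ℝ) ^ d) ≤ ε := by
      have h4 : - ∑ q ∈ PP y, (Nat.card {u : Fin d → ZMod q // B q u} : ℝ) / (q : ℝ) ^ d ≤ Real.log ε := by
        have h5 := hlow y
        have h6 : (- Real.log ε) / c ≤ ∑ n ∈ Finset.range (y + 1), recip r n - K0 := by linarith
        have h7 : - Real.log ε ≤ c * (∑ n ∈ Finset.range (y + 1), recip r n - K0) := by
          rw [div_le_iff₀ hc] at h6
          linarith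
        linarith
      calc Real.exp _ ≤ Real.exp (Real.log ε) := Real.exp_le_exp.mpr h4
        _ = ε := Real.exp_log hε
    calc (Cset.card : ℝ) ≤ _ := h1
      _ ≤ (primorial y : ℝ) ^ d * ε := mul_le_mul_of_nonneg_left h3 (by positivity)
      _ = _ := by ring
  refine ⟨Csetᶜ, ?_, ?_⟩
  · have h1 : (Csetᶜ.card : ℝ) = (primorial y : ℝ) ^ d - Cset.card := by
      have h2 : Cset.card + Csetᶜ.card = Fintype.card (Fin d → ZMod (primorial y)) :=
        Finset.card_add_card_compl Cset
      have h3 : Fintype.card (Fin d → ZMod (primorial y)) = (primorial y) ^ d := by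
        rw [Fintype.card_fun, ZMod.card, Fintype.card_fin]
      rw [h3] at h2
      have h4 : (Cset.card : ℝ) + Csetᶜ.card = (primorial y : ℝ) ^ d := by exact_mod_cast h2
      linarith
    rw [h1]
    linarith
  · intro x hx
    rw [Finset.mem_compl, Finset.mem_filter] at hx
    push Not at hx
    obtain ⟨q, hq, hBq⟩ := hx (Finset.mem_univ _)
    obtain ⟨h1, h2, h3⟩ := hBq
    refine ⟨q, (mem_PP.mp hq).1, h1, h2, ?_⟩
    have : (fun i => ZMod.castHom (dvd_primorial_of_mem hq) (ZMod q) ((x i : ZMod (primorial y)))) =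
        (fun i => (x i : ZMod q)) := by
      funext i
      rw [map_natCast]
    rw [← this]
    exact h3

end Pool.Agent.Work.MP_2738db_nt
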