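import Pool.Agent.Work.MP_2738db_nt.Pairs

set_option autoImplicit false

/-!
Generic triples of bases: no solution of `s₁ a ^ m + s₂ b ^ n = s₃ c ^ k` at all.
-/

namespace Pool.Agent.Work.MP_2738db_nt

lemma card_ne_zero {q : ℕ} [hq : Fact q.Prime] : q ≤ 2 * Nat.card {z : ZMod q // z ≠ 0} := by
  classical
  have h1 : Nat.card {z : ZMod q // z ≠ 0} = q - 1 := by
    rw [← ZMod.card_units q, ← Nat.card_eq_fintype_card]
    exact Nat.card_congr (unitsEquivNeZero).symm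
  have := hq.out.two_le
  omega

/-- First type of event. -/
lemma aa3_e1 (K : ℕ) : AA 3 (fun x => ∃ q : ℕ, q.Prime ∧ q ≡ 1 [MOD WW K] ∧ q ∣ x 0 ∧
    ¬ IsSquare (x 1 : ZMod q) ∧ (x 2 : ZMod q) ≠ 0) := by
  have h := AA.of_primes (d := 3) (w := WW K) (r := 1) isUnit_one 2
    (fun q u => u 0 = 0 ∧ ¬ IsSquare (u 1) ∧ u 2 ≠ 0) (c := 1 / 8) (by norm_num)
    (by
      intro q hq _ hy
      have hfact : Fact q.Prime := ⟨hq⟩
      have h1 := card_nonsq (q := q) (by omega) (s := 1) one_ne_zero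
      have h2 := card_ne_zero (q := q)
      have h3 : Nat.card ({y : ZMod q // y ≠ 0 ∧ ¬ IsSquare ((1 : ZMod q) * y)} ×
          {z : ZMod q // z ≠ 0}) ≤
          Nat.card {u : Fin 3 → ZMod q // u 0 = 0 ∧ ¬ IsSquare (u 1) ∧ u 2 ≠ 0} := by
        apply Nat.card_le_card_of_injective
          (fun p : {y : ZMod q // y ≠ 0 ∧ ¬ IsSquare ((1 : ZMod q) * y)} × {z : ZMod q // z ≠ 0} =>
            (⟨![0, p.1.1, p.2.1], by simp, by
              have := p.1.2.2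
              rw [one_mul] at this
              simpa using this, by simpa using p.2.2⟩ :
              {u : Fin 3 → ZMod q // u 0 = 0 ∧ ¬ IsSquare (u 1) ∧ u 2 ≠ 0}))
        intro p1 p2 h12
        have h13 := congrArg Subtype.val h12
        have h14 := congrFun h13 1
        have h15 := congrFun h13 2
        simp at h14 h15
        exact Prod.ext (Subtype.ext h14) (Subtype.ext h15)
      rw [Nat.card_prod] at h3
      have h1' : (q : ℝ) ≤ 4 * (Nat.card {y : ZMod q // y ≠ 0 ∧ ¬ IsSquare ((1 : ZMod q) * y)} : ℝ) := by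
        exact_mod_cast h1
      have h2' : (q : ℝ) ≤ 2 * (Nat.card {z : ZMod q // z ≠ 0} : ℝ) := by exact_mod_cast h2
      have h3' : (Nat.card {y : ZMod q // y ≠ 0 ∧ ¬ IsSquare ((1 : ZMod q) * y)} : ℝ) *
          (Nat.card {z : ZMod q // z ≠ 0} : ℝ) ≤
          (Nat.card {u : Fin 3 → ZMod q // u 0 = 0 ∧ ¬ IsSquare (u 1) ∧ u 2 ≠ 0} : ℝ) := by
        exact_mod_cast h3
      have hq0 : (0 : ℝ) < q := by exact_mod_cast hq.pos
      have h4 : (q : ℝ) * q ≤ (4 * (Nat.card {y : ZMod q // y ≠ 0 ∧ ¬ IsSquare ((1 : ZMod q) * y)} : ℝ)) *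
          (2 * (Nat.card {z : ZMod q // z ≠ 0} : ℝ)) :=
        mul_le_mul h1' h2' hq0.le (by positivity)
      have h5 : (q : ℝ) * q ≤ 8 * (Nat.card {u : Fin 3 → ZMod q // u 0 = 0 ∧ ¬ IsSquare (u 1) ∧ u 2 ≠ 0} : ℝ) := by
        nlinarith
      calc 1 / 8 * (q : ℝ) ^ 3 = q * ((1 / 8) * ((q : ℝ) * q)) := by ring
        _ ≤ q * (Nat.card {u : Fin 3 → ZMod q // u 0 = 0 ∧ ¬ IsSquare (u 1) ∧ u 2 ≠ 0} : ℝ) := by
            apply mul_le_mul_of_nonneg_left _ hq0.le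
            linarith)
  refine h.mono ?_
  rintro x ⟨q, hq, hqr, _, h0, h1, h2⟩
  refine ⟨q, hq, ?_, (ZMod.natCast_eq_zero_iff _ _).mp h0, h1, h2⟩
  have : ((q : ℕ) : ZMod (WW K)) = ((1 : ℕ) : ZMod (WW K)) := by rw [hqr]; simp
  exact natCast_eq_iff_modEq.mp this

/-- Second type of event. -/
lemma aa3_e2 (K : ℕ) : AA 3 (fun x => ∃ q : ℕ, q.Prime ∧ q ≡ 1 [MOD WW K] ∧ q ∣ x 0 ∧
    (x 1 : ZMod q) ≠ 0 ∧ (x 2 : ZMod q) ≠ 0 ∧ ¬ IsSquare ((x 1 : ZMod q) * (x 2 : ZMod q))) := by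
  have h := AA.of_primes (d := 3) (w := WW K) (r := 1) isUnit_one 2
    (fun q u => u 0 = 0 ∧ u 1 ≠ 0 ∧ u 2 ≠ 0 ∧ ¬ IsSquare (u 1 * u 2)) (c := 1 / 8) (by norm_num)
    (by
      intro q hq _ hy
      have hfact : Fact q.Prime := ⟨hq⟩
      have h1 := card_nonsq (q := q) (by omega) (s := 1) one_ne_zero
      have h2 := card_ne_zero (q := q)
      have h3 : Nat.card ({y : ZMod q // y ≠ 0 ∧ ¬ IsSquare ((1 : ZMod q) * y)} ×
          {z : ZMod q // z ≠ 0}) ≤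
          Nat.card {u : Fin 3 → ZMod q // u 0 = 0 ∧ u 1 ≠ 0 ∧ u 2 ≠ 0 ∧ ¬ IsSquare (u 1 * u 2)} := by
        apply Nat.card_le_card_of_injective
          (fun p : {y : ZMod q // y ≠ 0 ∧ ¬ IsSquare ((1 : ZMod q) * y)} × {z : ZMod q // z ≠ 0} =>
            (⟨![0, p.1.1 / p.2.1, p.2.1], by simp, by
              simpa using ⟨p.1.2.1, p.2.2⟩, by simpa using p.2.2, by
              have h6 := p.1.2.2
              rw [one_mul] at h6
              have h7 : p.1.1 / p.2.1 * p.2.1 = p.1.1 := div_mul_cancel₀ _ p.2.2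
              simpa [h7] using h6⟩ :
              {u : Fin 3 → ZMod q // u 0 = 0 ∧ u 1 ≠ 0 ∧ u 2 ≠ 0 ∧ ¬ IsSquare (u 1 * u 2)}))
        intro p1 p2 h12
        have h13 := congrArg Subtype.val h12
        have h14 := congrFun h13 1
        have h15 := congrFun h13 2
        simp only [Matrix.cons_val_one, Matrix.cons_val_zero, Matrix.cons_val] at h14 h15
        have h16 : p1.1.1 = p2.1.1 := by
          have h17 : p1.1.1 / p1.2.1 * p1.2.1 = p1.1.1 := div_mul_cancel₀ _ p1.2.2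
          have h18 : p2.1.1 / p2.2.1 * p2.2.1 = p2.1.1 := div_mul_cancel₀ _ p2.2.2
          rw [← h17, ← h18, h14, h15]
        exact Prod.ext (Subtype.ext h16) (Subtype.ext h15)
      rw [Nat.card_prod] at h3
      have h1' : (q : ℝ) ≤ 4 * (Nat.card {y : ZMod q // y ≠ 0 ∧ ¬ IsSquare ((1 : ZMod q) * y)} : ℝ) := by
        exact_mod_cast h1
      have h2' : (q : ℝ) ≤ 2 * (Nat.card {z : ZMod q // z ≠ 0} : ℝ) := by exact_mod_cast h2
      have h3' : (Nat.card {y : ZMod q // y ≠ 0 ∧ ¬ IsSquare ((1 : ZMod q) * y)} : ℝ) *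
          (Nat.card {z : ZMod q // z ≠ 0} : ℝ) ≤
          (Nat.card {u : Fin 3 → ZMod q // u 0 = 0 ∧ u 1 ≠ 0 ∧ u 2 ≠ 0 ∧ ¬ IsSquare (u 1 * u 2)} : ℝ) := by
        exact_mod_cast h3
      have hq0 : (0 : ℝ) < q := by exact_mod_cast hq.pos
      have h4 : (q : ℝ) * q ≤ (4 * (Nat.card {y : ZMod q // y ≠ 0 ∧ ¬ IsSquare ((1 : ZMod q) * y)} : ℝ)) *
          (2 * (Nat.card {z : ZMod q // z ≠ 0} : ℝ)) :=
        mul_le_mul h1' h2' hq0.le (by positivity)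
      have h5 : (q : ℝ) * q ≤ 8 * (Nat.card {u : Fin 3 → ZMod q // u 0 = 0 ∧ u 1 ≠ 0 ∧ u 2 ≠ 0 ∧ ¬ IsSquare (u 1 * u 2)} : ℝ) := by
        nlinarith
      calc 1 / 8 * (q : ℝ) ^ 3 = q * ((1 / 8) * ((q : ℝ) * q)) := by ring
        _ ≤ q * (Nat.card {u : Fin 3 → ZMod q // u 0 = 0 ∧ u 1 ≠ 0 ∧ u 2 ≠ 0 ∧ ¬ IsSquare (u 1 * u 2)} : ℝ) := by
            apply mul_le_mul_of_nonneg_left _ hq0.le
            linarith)
  refine h.mono ?_
  rintro x ⟨q, hq, hqr, _, h0, h1, h2, h3⟩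
  refine ⟨q, hq, ?_, (ZMod.natCast_eq_zero_iff _ _).mp h0, h1, h2, h3⟩
  have : ((q : ℕ) : ZMod (WW K)) = ((1 : ℕ) : ZMod (WW K)) := by rw [hqr]; simp
  exact natCast_eq_iff_modEq.mp this

/-- Third type of event. -/
lemma aa3_e3 (K : ℕ) : AA 3 (fun x => ∃ q : ℕ, q.Prime ∧ q + 1 ≡ 0 [MOD WW K] ∧ q ∣ x 2 ∧
    (x 0 : ZMod q) ≠ 0) := by
  have h := AA.of_primes (d := 3) (w := WW K) (r := -1) isUnit_one.neg 2
    (fun q u => u 2 = 0 ∧ u 0 ≠ 0) (c := 1 / 2) (by norm_num)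
    (by
      intro q hq _ hy
      have hfact : Fact q.Prime := ⟨hq⟩
      have h2 := card_ne_zero (q := q)
      have h3 : Nat.card (ZMod q × {z : ZMod q // z ≠ 0}) ≤
          Nat.card {u : Fin 3 → ZMod q // u 2 = 0 ∧ u 0 ≠ 0} := by
        apply Nat.card_le_card_of_injective
          (fun p : ZMod q × {z : ZMod q // z ≠ 0} =>
            (⟨![p.2.1, p.1, 0], by simp, by simpa using p.2.2⟩ :
              {u : Fin 3 → ZMod q // u 2 = 0 ∧ u 0 ≠ 0}))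
        intro p1 p2 h12
        have h13 := congrArg Subtype.val h12
        have h14 := congrFun h13 1
        have h15 := congrFun h13 0
        simp at h14 h15
        exact Prod.ext h14 (Subtype.ext h15)
      rw [Nat.card_prod, Nat.card_zmod] at h3
      have h2' : (q : ℝ) ≤ 2 * (Nat.card {z : ZMod q // z ≠ 0} : ℝ) := by exact_mod_cast h2
      have h3' : (q : ℝ) * (Nat.card {z : ZMod q // z ≠ 0} : ℝ) ≤
          (Nat.card {u : Fin 3 → ZMod q // u 2 = 0 ∧ u 0 ≠ 0} : ℝ) := by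
        exact_mod_cast h3
      have hq0 : (0 : ℝ) < q := by exact_mod_cast hq.pos
      have h4 : (q : ℝ) * q ≤ q * (2 * (Nat.card {z : ZMod q // z ≠ 0} : ℝ)) :=
        mul_le_mul_of_nonneg_left h2' hq0.le
      calc 1 / 2 * (q : ℝ) ^ 3 = q * ((1 / 2) * ((q : ℝ) * q)) := by ring
        _ ≤ q * (Nat.card {u : Fin 3 → ZMod q // u 2 = 0 ∧ u 0 ≠ 0} : ℝ) := by
            apply mul_le_mul_of_nonneg_left _ hq0.le
            linarith)
  refine h.mono ?_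
  rintro x ⟨q, hq, hqr, _, h0, h1⟩
  refine ⟨q, hq, ?_, (ZMod.natCast_eq_zero_iff _ _).mp h0, h1⟩
  have : ((q + 1 : ℕ) : ZMod (WW K)) = ((0 : ℕ) : ZMod (WW K)) := by push_cast; rw [hqr]; simp
  exact natCast_eq_iff_modEq.mp this

/-- The generic conditions on a triple. -/
structure GenTriple (K a b c : ℕ) : Prop where
  h1 : ∃ q : ℕ, q.Prime ∧ q ≡ 1 [MOD WW K] ∧ q ∣ a ∧ ¬ IsSquare (b : ZMod q) ∧ (c : ZMod q) ≠ 0
  h2 : ∃ q : ℕ, q.Prime ∧ q ≡ 1 [MOD WW K] ∧ q ∣ a ∧ ¬ IsSquare (c : ZMod q) ∧ (b : ZMod q) ≠ 0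
  h3 : ∃ q : ℕ, q.Prime ∧ q ≡ 1 [MOD WW K] ∧ q ∣ a ∧ (b : ZMod q) ≠ 0 ∧ (c : ZMod q) ≠ 0 ∧
    ¬ IsSquare ((b : ZMod q) * (c : ZMod q))
  h4 : ∃ q : ℕ, q.Prime ∧ q ≡ 1 [MOD WW K] ∧ q ∣ b ∧ ¬ IsSquare (a : ZMod q) ∧ (c : ZMod q) ≠ 0
  h5 : ∃ q : ℕ, q.Prime ∧ q + 1 ≡ 0 [MOD WW K] ∧ q ∣ c ∧ (a : ZMod q) ≠ 0

lemma aa_genTriple (K : ℕ) : AA 3 (fun x => GenTriple K (x 0) (x 1) (x 2)) := by
  have e1 := aa3_e1 K
  have e2 := (aa3_e1 K).reindex (Equiv.swap (1 : Fin 3) 2)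
  have e3 := aa3_e2 K
  have e4 := (aa3_e1 K).reindex (Equiv.swap (0 : Fin 3) 1)
  have e5 := aa3_e3 K
  refine ((e1.and e2).and ((e3.and e4).and e5)).mono ?_
  rintro x ⟨⟨h1, h2⟩, ⟨h3, h4⟩, h5⟩
  refine ⟨h1, ?_, h3, ?_, h5⟩
  · have h01 : (Equiv.swap (1 : Fin 3) 2) 0 = 0 := by decide
    have h11 : (Equiv.swap (1 : Fin 3) 2) 1 = 2 := by decide
    have h21 : (Equiv.swap (1 : Fin 3) 2) 2 = 1 := by decide
    simp only [h01, h11, h21] at h2
    exact h2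
  · have h01 : (Equiv.swap (0 : Fin 3) 1) 0 = 1 := by decide
    have h11 : (Equiv.swap (0 : Fin 3) 1) 1 = 0 := by decide
    have h21 : (Equiv.swap (0 : Fin 3) 1) 2 = 2 := by decide
    simp only [h01, h11, h21] at h4
    exact h4

lemma isSquare_div {F : Type*} [Field F] {x y : F} (hx : IsSquare x) (hy : IsSquare y) :
    IsSquare (x / y) := hx.div hy

/-- Main consequence for generic triples. -/
theorem genTriple_contra {K a b c : ℕ} (h : GenTriple K a b c) {s₁ s₂ s₃ m n k : ℕ}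
    (hs₁ : s₁ ≠ 0) (hs₂ : s₂ ≠ 0) (hs₃ : s₃ ≠ 0) (h₁ : NoLarge K s₁) (h₂ : NoLarge K s₂)
    (h₃ : NoLarge K s₃) (hm : 0 < m) (hn : 0 < n) (hk : 0 < k) :
    s₁ * a ^ m + s₂ * b ^ n ≠ s₃ * c ^ k := by
  intro heq
  -- squares modulo primes `q ≡ 1`
  have hsq1 : ∀ {q : ℕ} (_ : q.Prime) (_ : q ≡ 1 [MOD WW K]) {s : ℕ} (_ : s ≠ 0) (_ : NoLarge K s),
      IsSquare (s : ZMod q) ∧ (s : ZMod q) ≠ 0 := by
    intro q hq hq1 s hs0 hs
    have hfact : Fact q.Prime := ⟨hq⟩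
    refine ⟨isSquare_of_noLarge (fun p hp hpK => isSquare_of_one hq1 hp hpK) s hs0 hs, ?_⟩
    intro h0
    have hd := (ZMod.natCast_eq_zero_iff _ _).mp h0
    have hqK : q ≤ K := hs q hq hd
    have h5 : q ≡ 1 [MOD q] := hq1.of_dvd (dvd_WW hq hqK)
    have h6 : q ∣ 1 := (Nat.modEq_zero_iff_dvd).mp (h5.symm.trans (Nat.modEq_zero_iff_dvd.mpr dvd_rfl))
    exact hq.one_lt.ne' (Nat.dvd_one.mp h6)
  -- modulo `q ∣ a`
  have hmodA : ∀ {q : ℕ} (_ : q.Prime) (_ : q ≡ 1 [MOD WW K]) (_ : q ∣ a),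
      ∃ t : ZMod q, IsSquare t ∧ t ≠ 0 ∧ (b : ZMod q) ^ n = t * (c : ZMod q) ^ k := by
    intro q hq hq1 hqa
    have hfact : Fact q.Prime := ⟨hq⟩
    obtain ⟨h21, h22⟩ := hsq1 hq hq1 hs₂ h₂
    obtain ⟨h31, h32⟩ := hsq1 hq hq1 hs₃ h₃
    refine ⟨(s₃ : ZMod q) / (s₂ : ZMod q), h31.div h21, div_ne_zero h32 h22, ?_⟩
    have h7 := congrArg (Nat.cast : ℕ → ZMod q) heq
    push_cast at h7
    rw [(ZMod.natCast_eq_zero_iff _ _).mpr hqa, zero_pow hm.ne', mul_zero, zero_add] at h7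
    field_simp
    linear_combination h7
  have hkn : Even k ∧ Even n := by
    rcases Nat.even_or_odd k with hk2 | hk2
    · refine ⟨hk2, ?_⟩
      obtain ⟨q, hq, hq1, hqa, hb, hc⟩ := h.h1
      have hfact : Fact q.Prime := ⟨hq⟩
      obtain ⟨t, ht, ht0, htb⟩ := hmodA hq hq1 hqa
      have hb0 : (b : ZMod q) ≠ 0 := fun h0 => hb (by rw [h0]; exact IsSquare.zero)
      apply even_of_isSquare_pow hb0 hb
      rw [htb]
      exact ht.mul (hk2.isSquare_pow _)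
    · exfalso
      rcases Nat.even_or_odd n with hn2 | hn2
      · obtain ⟨q, hq, hq1, hqa, hc, hb⟩ := h.h2
        have hfact : Fact q.Prime := ⟨hq⟩
        obtain ⟨t, ht, ht0, htb⟩ := hmodA hq hq1 hqa
        have hc0 : (c : ZMod q) ≠ 0 := fun h0 => hc (by rw [h0]; exact IsSquare.zero)
        have h8 : Even k := by
          apply even_of_isSquare_pow hc0 hc
          have h9 : (c : ZMod q) ^ k = (b : ZMod q) ^ n / t := by
            field_simp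
            linear_combination (-1 : ZMod q) * htb
          rw [h9]
          exact (hn2.isSquare_pow _).div ht
        exact (Nat.not_even_iff_odd.mpr hk2) h8
      · obtain ⟨q, hq, hq1, hqa, hb0, hc0, hbc⟩ := h.h3
        have hfact : Fact q.Prime := ⟨hq⟩
        obtain ⟨t, ht, ht0, htb⟩ := hmodA hq hq1 hqa
        obtain ⟨n1, hn1⟩ := hn2
        obtain ⟨k1, hk1⟩ := hk2
        apply hbc
        have hb1 : (b : ZMod q) ^ n1 ≠ 0 := pow_ne_zero _ hb0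
        have h9 : (b : ZMod q) * (c : ZMod q) =
            t * ((c : ZMod q) ^ (k1 + 1) / (b : ZMod q) ^ n1) ^ 2 := by
          have h10 : (b : ZMod q) ^ n = b * ((b : ZMod q) ^ n1) ^ 2 := by rw [hn1]; ring
          have h11 : (c : ZMod q) ^ k * c = ((c : ZMod q) ^ (k1 + 1)) ^ 2 := by rw [hk1]; ring
          rw [div_pow]
          field_simp
          calc (b : ZMod q) * c * ((b : ZMod q) ^ n1) ^ 2 = (b * ((b : ZMod q) ^ n1) ^ 2) * c := by ring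
            _ = t * ((c : ZMod q) ^ k * c) := by rw [← h10, htb]; ring
            _ = _ := by rw [h11]
        rw [h9]
        exact ht.mul ⟨(c : ZMod q) ^ (k1 + 1) / (b : ZMod q) ^ n1, by ring⟩
  obtain ⟨hk2, hn2⟩ := hkn
  have hm2 : Even m := by
    obtain ⟨q, hq, hq1, hqb, ha, hc⟩ := h.h4
    have hfact : Fact q.Prime := ⟨hq⟩
    obtain ⟨h11, h12⟩ := hsq1 hq hq1 hs₁ h₁
    obtain ⟨h31, h32⟩ := hsq1 hq hq1 hs₃ h₃
    have ha0 : (a : ZMod q) ≠ 0 := fun h0 => ha (by rw [h0]; exact IsSquare.zero)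
    apply even_of_isSquare_pow ha0 ha
    have h7 := congrArg (Nat.cast : ℕ → ZMod q) heq
    push_cast at h7
    rw [(ZMod.natCast_eq_zero_iff _ _).mpr hqb, zero_pow hn.ne', mul_zero, add_zero] at h7
    have h9 : (a : ZMod q) ^ m = (s₃ : ZMod q) / (s₁ : ZMod q) * (c : ZMod q) ^ k := by
      field_simp
      linear_combination h7
    rw [h9]
    exact (h31.div h11).mul (hk2.isSquare_pow _)
  obtain ⟨q, hq, hq1, hqc, ha⟩ := h.h5
  have hfact : Fact q.Prime := ⟨hq⟩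
  obtain ⟨σ₁, hσ₁⟩ : IsSquare (s₁ : ZMod q) :=
    isSquare_of_noLarge (fun p hp hpK => isSquare_of_neg_one hq1 hp hpK) s₁ hs₁ h₁
  obtain ⟨σ₂, hσ₂⟩ : IsSquare (s₂ : ZMod q) :=
    isSquare_of_noLarge (fun p hp hpK => isSquare_of_neg_one hq1 hp hpK) s₂ hs₂ h₂
  have hσ₁0 : σ₁ ≠ 0 := by
    rintro rfl
    rw [mul_zero] at hσ₁
    have hd := (ZMod.natCast_eq_zero_iff _ _).mp hσ₁
    have hqK : q ≤ K := h₁ q hq hd
    have h5 : q + 1 ≡ 0 [MOD q] := hq1.of_dvd (dvd_WW hq hqK)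
    have h6 : q ∣ q + 1 := (Nat.modEq_zero_iff_dvd).mp h5
    have h7 : q ∣ 1 := (Nat.dvd_add_right dvd_rfl).mp h6
    exact hq.one_lt.ne' (Nat.dvd_one.mp h7)
  have h8 : q % 8 = 7 := by
    have h1 : q + 1 ≡ 0 [MOD 8] := hq1.of_dvd (Dvd.intro _ rfl)
    have h2 : (q + 1) % 8 = 0 := h1
    omega
  obtain ⟨μ, hμ⟩ := hm2
  obtain ⟨ν, hν⟩ := hn2
  have h7 := congrArg (Nat.cast : ℕ → ZMod q) heq
  push_cast at h7
  rw [(ZMod.natCast_eq_zero_iff _ _).mpr hqc, zero_pow hk.ne', mul_zero, hσ₁, hσ₂, hμ, hν, pow_add,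
    pow_add] at h7
  have hA0 : σ₁ * (a : ZMod q) ^ μ ≠ 0 := mul_ne_zero hσ₁0 (pow_ne_zero _ ha)
  have h3 : IsSquare (-1 : ZMod q) := by
    refine ⟨σ₂ * (b : ZMod q) ^ ν / (σ₁ * (a : ZMod q) ^ μ), ?_⟩
    field_simp
    linear_combination (-1 : ZMod q) * h7
  exact (ZMod.exists_sq_eq_neg_one_iff.mp h3) (by omega)

end Pool.Agent.Work.MP_2738db_nt
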